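import Pool.Agent.H442R2.EHI.Core3
import Pool.Agent.H442R2.EHI.Lower
import Pool.Agent.H442R2.EHI.FinalOf

set_option autoImplicit false

/-! The discrepancies of the primes on average over the pairs of a modulus in a dyadic block and a residue
in a short interval. -/

namespace Pool.Agent.K1H84.EHR

open Finset Filter Pool.Agent.H442R2.EHI

/-- the discrepancy of the primes in the class of `a` modulo `q`, `0` if `a` and `q` are not coprime -/
noncomputable def ec (x q a : ℕ) : ℝ :=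
  if a.Coprime q then |piAP x q a - lis x / (Nat.totient q : ℝ)| else 0

theorem ec_nonneg (x q a : ℕ) : 0 ≤ ec x q a := by
  unfold ec
  split_ifs
  · exact abs_nonneg _
  · exact le_rfl

theorem sum_ec (x a : ℕ) (s : Finset ℕ) : ∑ q ∈ s, ec x q a =
    ∑ q ∈ s.filter (fun q => a.Coprime q), |piAP x q a - lis x / (Nat.totient q : ℝ)| := by
  rw [sum_filter]
  rfl

theorem evl_pow (k : ℕ) (s : ℝ) (hs : 0 < s) : ∀ᶠ x : ℕ in atTop, 4 * Real.log x ^ k ≤ (x : ℝ) ^ s := by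
  filter_upwards [evt_log_pow (k + 1) s hs, evt_log_ge 4] with x h1 h2
  have h3 : 0 ≤ Real.log x ^ k := by positivity
  calc 4 * Real.log x ^ k ≤ Real.log x * Real.log x ^ k := mul_le_mul_of_nonneg_right h2 h3
    _ = Real.log x ^ (k + 1) := by ring
    _ ≤ _ := h1

/-- the size of the intervals -/
theorem size_le {K j x : ℕ} (hx : 1 ≤ x) (hL : 4 ≤ Real.log x) (hLK : (K : ℝ) ≤ Real.log x)
    (hj : (2 : ℝ) ^ j ≤ x) : (K : ℝ) * ((j : ℝ) + 1) ^ K ≤ Real.log x ^ (2 * K + 1) ∧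
      (j : ℝ) + 1 ≤ Real.log x ^ 2 := by
  have hx0 : (0 : ℝ) < x := by exact_mod_cast hx
  have h1 : (j : ℝ) * Real.log 2 ≤ Real.log x := by
    have h := Real.log_le_log (by positivity) hj
    rwa [Real.log_pow] at h
  have h2 := Real.log_two_gt_d9
  have hj0 : (0 : ℝ) ≤ j := Nat.cast_nonneg j
  have h3 : (j : ℝ) ≤ 2 * Real.log x := by nlinarith
  have h4 : (j : ℝ) + 1 ≤ Real.log x ^ 2 := by nlinarith
  refine ⟨?_, h4⟩
  calc (K : ℝ) * ((j : ℝ) + 1) ^ K ≤ Real.log x * (Real.log x ^ 2) ^ K :=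
        mul_le_mul hLK (pow_le_pow_left₀ (by positivity) h4 K) (by positivity) (by linarith)
    _ = Real.log x ^ (2 * K + 1) := by ring

theorem blk {κ : ℝ} (hκ : 1 / 2 < κ) (hκ1 : κ ≤ 1) (K : ℕ) {ε : ℝ} (hε : 0 < ε) (U : ℕ) :
    ∃ x0 : ℕ, ∀ x : ℕ, x0 ≤ x → ∀ j b A h : ℕ, (2 : ℝ) ^ j ≤ (x : ℝ) ^ (1 - ε) →
      (2 : ℝ) ^ (κ * j) ≤ A → ((b : ℝ) + A) ≤ K * ((j : ℝ) + 1) ^ K * 2 ^ j →
      (h : ℝ) ≤ Real.log x ^ K →
      ∑ a ∈ Ioc (b + h) (b + h + A), ∑ q ∈ Ico (2 ^ j) (2 ^ (j + 1)), ec x q a ≤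
        A * x / Real.log x ^ U := by
  obtain ⟨B1, x1, hlow⟩ := lower U
  obtain ⟨B2, x2, hcor⟩ := core ε hε (U + 1)
  set ρ : ℝ := (1 + κ) / (2 - κ) with hρ
  have h2κ : 0 < 2 - κ := by linarith
  have hρ1 : 1 < ρ := by
    rw [hρ, lt_div_iff₀ h2κ]
    linarith
  set δ : ℝ := min (1 / 16) ((ρ - 1) / (ρ + 1)) with hδ
  have hδ0 : 0 < δ := lt_min (by norm_num) (div_pos (by linarith) (by linarith))
  have hδ1 : δ ≤ 1 / 16 := min_le_left _ _
  have hδρ : 1 + δ ≤ ρ * (1 - δ) := by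
    have h3 : δ ≤ (ρ - 1) / (ρ + 1) := min_le_right _ _
    rw [le_div_iff₀ (by linarith)] at h3
    linarith
  have hev : ∀ᶠ x : ℕ in atTop, x1 ≤ x ∧ x2 ≤ x ∧ 4 ≤ Real.log x ∧ (K : ℝ) ≤ Real.log x ∧
      4 * Real.log x ^ B1 ≤ (x : ℝ) ^ δ ∧ 4 * Real.log x ^ B2 ≤ (x : ℝ) ^ δ ∧
      4 * Real.log x ^ (2 * K + 1 + B1) ≤ (x : ℝ) ^ ε ∧ 4 * Real.log x ^ K ≤ (x : ℝ) ^ (1 / 2 : ℝ) ∧
      4 * Real.log x ^ 0 ≤ (x : ℝ) ^ (1 / 16 : ℝ) := by
    filter_upwards [eventually_ge_atTop x1, eventually_ge_atTop x2, evt_log_ge 4, evt_log_ge K,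
      evl_pow B1 δ hδ0, evl_pow B2 δ hδ0, evl_pow (2 * K + 1 + B1) ε hε,
      evl_pow K (1 / 2) (by norm_num), evl_pow 0 (1 / 16) (by norm_num)] with x a1 a2 a3 a4 a5 a6 a7 a8 a9
    exact ⟨a1, a2, a3, a4, a5, a6, a7, a8, a9⟩
  obtain ⟨x0, hx0⟩ := eventually_atTop.1 hev
  refine ⟨max x0 1, fun x hx j b A h hj hA hbA hh => ?_⟩
  obtain ⟨e1, e2, hL4, hLK, f1, f2, f3, f4, f5⟩ := hx0 x ((le_max_left _ _).trans hx)
  have hx1 : 1 ≤ x := (le_max_right _ _).trans hx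
  have hxR : (1 : ℝ) ≤ x := by exact_mod_cast hx1
  have hxp : (0 : ℝ) < x := by linarith
  set L := Real.log x with hL
  have hL1 : 1 ≤ L := by linarith
  have hL0 : 0 < L := by linarith
  rw [pow_zero, mul_one] at f5
  have hjx : (2 : ℝ) ^ j ≤ x := by
    refine hj.trans ?_
    calc (x : ℝ) ^ (1 - ε) ≤ (x : ℝ) ^ (1 : ℝ) := Real.rpow_le_rpow_of_exponent_le hxR (by linarith)
      _ = x := Real.rpow_one _
  obtain ⟨g1, -⟩ := size_le hx1 hL4 hLK hjx
  have h2j : (0 : ℝ) < 2 ^ j := by positivity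
  have hbA' : (b : ℝ) + A ≤ L ^ (2 * K + 1) * (x : ℝ) ^ (1 - ε) :=
    hbA.trans (mul_le_mul g1 hj (by positivity) (by positivity))
  have hb0 : (0 : ℝ) ≤ b := Nat.cast_nonneg b
  have hxx : (x : ℝ) ^ ε * (x : ℝ) ^ (1 - ε) = x := by
    rw [← Real.rpow_add hxp]
    simp
  have hxε : (0 : ℝ) < (x : ℝ) ^ (1 - ε) := Real.rpow_pos_of_pos hxp _
  have hLB : (1 : ℝ) ≤ L ^ B1 := one_le_pow₀ hL1
  have hLW : (1 : ℝ) ≤ L ^ (2 * K + 1) := one_le_pow₀ hL1
  -- `4 (b + A) L ^ B1 ≤ x`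
  have hbAx : 4 * ((b : ℝ) + A) * L ^ B1 ≤ x := by
    calc 4 * ((b : ℝ) + A) * L ^ B1 ≤ 4 * (L ^ (2 * K + 1) * (x : ℝ) ^ (1 - ε)) * L ^ B1 := by
          refine mul_le_mul_of_nonneg_right ?_ (by positivity)
          linarith
      _ = (4 * L ^ (2 * K + 1 + B1)) * (x : ℝ) ^ (1 - ε) := by ring
      _ ≤ (x : ℝ) ^ ε * (x : ℝ) ^ (1 - ε) := mul_le_mul_of_nonneg_right f3 hxε.le
      _ = x := hxx
  have hA0 : (0 : ℝ) < A := lt_of_lt_of_le (by positivity) hA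
  by_cases hcase : (((2 ^ (j + 1) : ℕ) : ℝ)) ^ 2 * L ^ B1 ≤ (A : ℝ) * x
  · -- small moduli
    have h1 := hlow x e1 (2 ^ (j + 1)) A (b + h) hcase (by
      push_cast
      calc (2 : ℝ) ^ (j + 1) * L ^ B1 = (2 * L ^ B1) * 2 ^ j := by ring
        _ ≤ (4 * L ^ (2 * K + 1 + B1)) * (x : ℝ) ^ (1 - ε) := by
            refine mul_le_mul ?_ hj (by positivity) (by positivity)
            rw [pow_add]
            nlinarith
        _ ≤ (x : ℝ) ^ ε * (x : ℝ) ^ (1 - ε) := mul_le_mul_of_nonneg_right f3 hxε.le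
        _ = x := hxx) (by nlinarith)
    refine le_trans (sum_le_sum fun a _ => ?_) h1
    rw [← sum_ec]
    refine sum_le_sum_of_subset_of_nonneg ?_ fun q _ _ => ec_nonneg _ _ _
    intro q hq
    rw [mem_Ico] at hq
    rw [mem_Icc]
    have : 1 ≤ 2 ^ j := Nat.one_le_two_pow
    omega
  · -- large moduli
    push Not at hcase
    set y : ℝ := (2 : ℝ) ^ j with hy
    have hy0 : 0 < y := h2j
    have hy1 : 1 ≤ y := one_le_pow₀ (by norm_num)
    have hκj : (2 : ℝ) ^ (κ * j) = y ^ κ := by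
      rw [hy, ← Real.rpow_natCast, ← Real.rpow_mul (by norm_num)]
      congr 1
      ring
    rw [hκj] at hA
    have h1 : y ^ κ * x < 4 * L ^ B1 * y ^ (2 : ℝ) := by
      have h2 : (A : ℝ) * x < 4 * L ^ B1 * y ^ 2 := by
        push_cast at hcase
        calc (A : ℝ) * x < ((2 : ℝ) ^ (j + 1)) ^ 2 * L ^ B1 := hcase
          _ = 4 * L ^ B1 * y ^ 2 := by
              rw [hy]
              ring
      calc y ^ κ * x ≤ A * x := mul_le_mul_of_nonneg_right hA hxp.le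
        _ < 4 * L ^ B1 * y ^ 2 := h2
        _ = 4 * L ^ B1 * y ^ (2 : ℝ) := by norm_cast
    -- `x ^ (1 - δ) < y ^ (2 - κ)`
    have h2 : (x : ℝ) ^ (1 - δ) < y ^ (2 - κ) := by
      have h3 : (x : ℝ) ^ (1 - δ) * (x : ℝ) ^ δ = x := by
        rw [← Real.rpow_add hxp]
        simp
      have h4 : y ^ (2 - κ) * y ^ κ = y ^ (2 : ℝ) := by
        rw [← Real.rpow_add hy0]
        congr 1
        ring
      have h5 : 0 < y ^ κ := Real.rpow_pos_of_pos hy0 _
      have h6 : 0 < (x : ℝ) ^ δ := Real.rpow_pos_of_pos hxp _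
      have h7 : 0 < y ^ (2 - κ) := Real.rpow_pos_of_pos hy0 _
      by_contra hcon
      push Not at hcon
      have h8 : 4 * L ^ B1 * y ^ (2 : ℝ) ≤ y ^ κ * x := by
        calc 4 * L ^ B1 * y ^ (2 : ℝ) = (4 * L ^ B1) * (y ^ (2 - κ) * y ^ κ) := by rw [h4]
          _ ≤ (x : ℝ) ^ δ * ((x : ℝ) ^ (1 - δ) * y ^ κ) :=
              mul_le_mul f1 (mul_le_mul_of_nonneg_right hcon h5.le) (by positivity) h6.le
          _ = y ^ κ * ((x : ℝ) ^ (1 - δ) * (x : ℝ) ^ δ) := by ring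
          _ = y ^ κ * x := by rw [h3]
      exact absurd h1 (not_lt.2 h8)
    -- `y` is large
    have h3 : (x : ℝ) ^ ((1 - δ) / (2 - κ)) ≤ y := by
      have h4 := Real.rpow_le_rpow (Real.rpow_nonneg hxp.le _) h2.le (show (0 : ℝ) ≤ 1 / (2 - κ) by positivity)
      rw [← Real.rpow_mul hxp.le, ← Real.rpow_mul hy0.le] at h4
      have h5 : (2 - κ) * (1 / (2 - κ)) = 1 := by field_simp
      rw [h5, Real.rpow_one] at h4
      refine le_trans (le_of_eq ?_) h4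
      congr 1
      ring
    have h4 : 4 * (x : ℝ) ^ (1 / 2 : ℝ) ≤ y := by
      have h5 : (1 / 2 : ℝ) + 1 / 16 ≤ (1 - δ) / (2 - κ) := by
        rw [le_div_iff₀ h2κ]
        nlinarith
      calc 4 * (x : ℝ) ^ (1 / 2 : ℝ) ≤ (x : ℝ) ^ (1 / 16 : ℝ) * (x : ℝ) ^ (1 / 2 : ℝ) :=
            mul_le_mul_of_nonneg_right f5 (by positivity)
        _ = (x : ℝ) ^ ((1 / 2 : ℝ) + 1 / 16) := by
            rw [← Real.rpow_add hxp]
            congr 1
            ring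
        _ ≤ (x : ℝ) ^ ((1 - δ) / (2 - κ)) := Real.rpow_le_rpow_of_exponent_le hxR h5
        _ ≤ y := h3
    have hj1 : 1 ≤ j := by
      by_contra hj0
      have : j = 0 := by omega
      rw [hy, this, pow_zero] at h4
      have h5 : (1 : ℝ) ≤ (x : ℝ) ^ (1 / 2 : ℝ) := Real.one_le_rpow hxR (by norm_num)
      linarith
    -- `4 x L ^ B2 ≤ A y`
    have h5 : 4 * (x * L ^ B2) ≤ A * y := by
      have h6 : (x : ℝ) ^ (1 + δ) ≤ y ^ (1 + κ) := by
        have h7 := Real.rpow_le_rpow (Real.rpow_nonneg hxp.le _) h2.le (show (0 : ℝ) ≤ ρ by linarith)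
        rw [← Real.rpow_mul hxp.le, ← Real.rpow_mul hy0.le] at h7
        have h8 : (2 - κ) * ρ = 1 + κ := by
          rw [hρ]
          field_simp
        rw [h8] at h7
        refine le_trans (Real.rpow_le_rpow_of_exponent_le hxR ?_) h7
        linarith [mul_comm ρ (1 - δ)]
      calc 4 * (x * L ^ B2) = (4 * L ^ B2) * x := by ring
        _ ≤ (x : ℝ) ^ δ * x := mul_le_mul_of_nonneg_right f2 hxp.le
        _ = (x : ℝ) ^ (1 + δ) := by
            rw [add_comm, Real.rpow_add hxp, Real.rpow_one]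
        _ ≤ y ^ (1 + κ) := h6
        _ = y ^ κ * y := by
            rw [add_comm, Real.rpow_add hy0, Real.rpow_one]
        _ ≤ A * y := mul_le_mul_of_nonneg_right hA hy0.le
    have hpow : (2 : ℝ) ^ (j - 1) * 2 = y := by
      rw [hy, ← pow_succ]
      congr 1
      omega
    have hhx : (h : ℝ) * 4 ≤ x := by
      calc (h : ℝ) * 4 ≤ 4 * L ^ K := by linarith
        _ ≤ (x : ℝ) ^ (1 / 2 : ℝ) := f4
        _ ≤ (x : ℝ) ^ (1 : ℝ) := Real.rpow_le_rpow_of_exponent_le hxR (by norm_num)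
        _ = x := Real.rpow_one _
    have hsum : b + h + A ≤ x := by
      have : ((b + h + A : ℕ) : ℝ) ≤ x := by
        push_cast
        nlinarith
      exact_mod_cast this
    have hx2 : (0 : ℝ) ≤ (x : ℝ) ^ (1 / 2 : ℝ) := by positivity
    have hA' : (0 : ℝ) ≤ A := hA0.le
    have c1 := hcor x e2 (2 ^ (j - 1)) A (b + h) (by push_cast; linarith)
      (by push_cast; linarith) (by
        push_cast
        have h6 : (A : ℝ) * y = 2 * (A * 2 ^ (j - 1)) := by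
          rw [← hpow]
          ring
        have h7 : 0 ≤ x * L ^ B2 := by positivity
        linarith) hsum
    have c2 := hcor x e2 (2 ^ j) A (b + h) (by push_cast; linarith)
      (by push_cast; exact hj) (by
        push_cast
        have h7 : 0 ≤ x * L ^ B2 := by positivity
        linarith) hsum
    have h6 : ∑ a ∈ Ioc (b + h) (b + h + A), ∑ q ∈ Ico (2 ^ j) (2 ^ (j + 1)), ec x q a ≤
        ∑ a ∈ Ioc (b + h) (b + h + A), ∑ q ∈ (Ioc (2 ^ (j - 1)) (2 * 2 ^ (j - 1))).filter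
            (fun q => a.Coprime q), |piAP x q a - lis x / (Nat.totient q : ℝ)| +
        ∑ a ∈ Ioc (b + h) (b + h + A), ∑ q ∈ (Ioc (2 ^ j) (2 * 2 ^ j)).filter
            (fun q => a.Coprime q), |piAP x q a - lis x / (Nat.totient q : ℝ)| := by
      rw [← sum_add_distrib]
      refine sum_le_sum fun a _ => ?_
      rw [← sum_ec, ← sum_ec]
      have h7 : Ico (2 ^ j) (2 ^ (j + 1)) ⊆ Ioc (2 ^ (j - 1)) (2 * 2 ^ (j - 1)) ∪ Ioc (2 ^ j) (2 * 2 ^ j) := by
        intro q hq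
        rw [mem_Ico] at hq
        rw [mem_union, mem_Ioc, mem_Ioc]
        have h8 : 2 * 2 ^ (j - 1) = 2 ^ j := by
          rw [← pow_succ']
          congr 1
          omega
        have h9 : 2 ^ (j + 1) = 2 * 2 ^ j := pow_succ' _ _
        have h10 : 1 ≤ 2 ^ (j - 1) := Nat.one_le_two_pow
        omega
      refine (sum_le_sum_of_subset_of_nonneg h7 fun q _ _ => ec_nonneg _ _ _).trans ?_
      rw [← sum_union_inter]
      have h8 : 0 ≤ ∑ q ∈ Ioc (2 ^ (j - 1)) (2 * 2 ^ (j - 1)) ∩ Ioc (2 ^ j) (2 * 2 ^ j), ec x q a :=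
        sum_nonneg fun q _ => ec_nonneg _ _ _
      linarith
    refine h6.trans ((add_le_add c1 c2).trans ?_)
    have h7 : (A : ℝ) * x / L ^ (U + 1) + A * x / L ^ (U + 1) = (A * x / L ^ U) * (2 / L) := by
      rw [pow_succ]
      field_simp
      ring
    rw [h7]
    have h8 : 2 / L ≤ 1 := by
      rw [div_le_one hL0]
      linarith
    have h9 : 0 ≤ (A : ℝ) * x / L ^ U := by positivity
    nlinarith

end Pool.Agent.K1H84.EHR
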