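import Pool.Agent.K1H84.EHR.RealPt

set_option autoImplicit false

/-! Random residue classes. -/

namespace Pool.Agent.K1H84.EHR

open Finset Filter MeasureTheory Pool.Agent.H442R2.EHI
open scoped ENNReal

/-- **Random residue classes**, each of which has a probability of at most `(log q) ^ O(1) / q`. -/
theorem classes {Ω : Type} [MeasurableSpace Ω] (P : Measure Ω) (r : ℕ → Ω → ℕ)
    (hr : ∀ q, Measurable (r q)) (K : ℕ)
    (hP : ∀ q : ℕ, 1 ≤ q → ∀ a, P {ω | r q ω ≡ a [MOD q]} ≤
      ENNReal.ofReal (K * (1 + Real.log q) ^ K / q)) :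
    ∀ᵐ ω ∂P, Level (fun q => r q ω) := by
  classical
  set r' : ℕ → Ω → ℕ := fun q ω => (r q ω + (q - 1)) % q + 1 with hr'
  have hr'm : ∀ q, Measurable (r' q) := fun q =>
    (measurable_of_countable fun n : ℕ => (n + (q - 1)) % q + 1).comp (hr q)
  have hmod : ∀ q, 1 ≤ q → ∀ ω, r' q ω ≡ r q ω [MOD q] := by
    intro q hq ω
    have h1 : (r q ω + (q - 1)) % q + 1 ≡ r q ω + (q - 1) + 1 [MOD q] :=
      Nat.ModEq.add_right _ (Nat.mod_modEq _ _)
    have h2 : r q ω + (q - 1) + 1 = r q ω + q := by omega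
    rw [h2] at h1
    refine h1.trans ?_
    have h3 : q ≡ 0 [MOD q] := (Nat.modEq_zero_iff_dvd).2 dvd_rfl
    simp
  set K' : ℕ := K * 2 ^ (K + 1) + 2 with hK'
  set I : ℕ → Finset (ℕ × ℕ) := fun j => {((0 : ℕ), 2 ^ (j + 1))} with hI
  have hKK : K ≤ K' := by
    have h1 : 1 ≤ 2 ^ (K + 1) := Nat.one_le_two_pow
    have h2 : K * 1 ≤ K * 2 ^ (K + 1) := Nat.mul_le_mul_left _ h1
    omega
  have hallow : Allowed 1 K' I := by
    intro j
    have hj1 : (1 : ℝ) ≤ (j : ℝ) + 1 := by
      have : (0 : ℝ) ≤ j := Nat.cast_nonneg j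
      linarith
    have hp1 : (1 : ℝ) ≤ ((j : ℝ) + 1) ^ K' := one_le_pow₀ hj1
    have hK2 : (2 : ℝ) ≤ K' := by
      have : 2 ≤ K' := by omega
      exact_mod_cast this
    have h2 : (2 : ℝ) ≤ K' * ((j : ℝ) + 1) ^ K' := by nlinarith
    constructor
    · rw [hI]
      simp only [card_singleton, Nat.cast_one]
      linarith
    · intro p hp
      rw [hI] at hp
      simp only [mem_singleton] at hp
      subst hp
      constructor
      · rw [one_mul, Real.rpow_natCast]
        push_cast
        rw [pow_succ]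
        have : (0 : ℝ) < 2 ^ j := by positivity
        linarith
      · push_cast
        rw [pow_succ]
        have : (0 : ℝ) < 2 ^ j := by positivity
        nlinarith
  have h := random P r' hr'm (κ := 1) (by norm_num) le_rfl K' I hallow (by
    intro q hq a
    have hqR : (1 : ℝ) ≤ q := by exact_mod_cast hq
    set j := Nat.log 2 q with hj
    have hjq : 2 ^ j ≤ q := Nat.pow_log_le_self 2 (by omega)
    have hqj : q < 2 ^ (j + 1) := Nat.lt_pow_succ_log_self (by norm_num) q
    have hjqR : (2 : ℝ) ^ j ≤ q := by exact_mod_cast hjq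
    have hqjR : (q : ℝ) ≤ 2 ^ (j + 1) := by exact_mod_cast hqj.le
    have hj1 : (1 : ℝ) ≤ (j : ℝ) + 1 := by
      have : (0 : ℝ) ≤ j := Nat.cast_nonneg j
      linarith
    by_cases ha : 0 < a ∧ a ≤ q
    · have h1 : P {ω | r' q ω = a} ≤ P {ω | r q ω ≡ a [MOD q]} := by
        refine measure_mono fun ω hω => ?_
        rw [Set.mem_ofPred_eq] at hω ⊢
        rw [← hω]
        exact (hmod q hq ω).symm
      refine h1.trans ((hP q hq a).trans (ENNReal.ofReal_le_ofReal ?_))
      unfold wt
      rw [hI]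
      simp only [sum_singleton, ← hj]
      rw [if_pos ⟨ha.1, by omega⟩]
      have hK'R : (K' : ℝ) = K * 2 ^ (K + 1) + 2 := by
        rw [hK']
        push_cast
        ring
      have hlog : 1 + Real.log q ≤ 2 * ((j : ℝ) + 1) := by
        have h2 : Real.log q ≤ Real.log ((2 : ℝ) ^ (j + 1)) := Real.log_le_log (by linarith) hqjR
        rw [Real.log_pow] at h2
        have h3 := Real.log_two_lt_d9
        push_cast at h2
        nlinarith
      have hlog0 : 0 ≤ 1 + Real.log q := by
        have := Real.log_natCast_nonneg q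
        linarith
      have h2j : (0 : ℝ) < 2 ^ j := by positivity
      rw [hK'R]
      push_cast
      calc (K : ℝ) * (1 + Real.log q) ^ K / q ≤ K * (2 * ((j : ℝ) + 1)) ^ K / 2 ^ j :=
            div_le_div₀ (by positivity) (mul_le_mul_of_nonneg_left
              (pow_le_pow_left₀ hlog0 hlog K) (by positivity)) h2j hjqR
        _ = (K * 2 ^ (K + 1)) * ((j : ℝ) + 1) ^ K * (1 / 2 ^ (j + 1)) := by
            rw [mul_pow, pow_succ, pow_succ]
            field_simp
        _ ≤ (K * 2 ^ (K + 1) + 2) * ((j : ℝ) + 1) ^ K' * (1 / 2 ^ (j + 1)) := by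
            refine mul_le_mul_of_nonneg_right ?_ (by positivity)
            exact mul_le_mul (by linarith) (pow_le_pow_right₀ hj1 hKK) (by positivity) (by positivity)
    · have h1 : {ω | r' q ω = a} = ∅ := by
        rw [Set.eq_empty_iff_forall_notMem]
        intro ω hω
        rw [Set.mem_ofPred_eq] at hω
        apply ha
        have := Nat.mod_lt (r q ω + (q - 1)) (show q > 0 by omega)
        rw [← hω, hr']
        simp only
        omega
      rw [h1, measure_empty]
      exact zero_le)
  filter_upwards [h] with ω hω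
  exact Level_congr (fun q hq => hmod q hq ω) hω

end Pool.Agent.K1H84.EHR
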