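import Pool.Agent.K1H84.EHR.Expect

set_option autoImplicit false

/-! From a grid of values of `x` to all `x`, for given residues. -/

namespace Pool.Agent.K1H84.EHR

open Finset Filter MeasureTheory Pool.Agent.H442R2.EHI

/-- `E(x; q, a)` with the logarithmic integral -/
noncomputable def EI (x q a : ℕ) : ℝ :=
  piAP x q a - (∫ t in (2 : ℝ)..x, 1 / Real.log t) / (Nat.totient q : ℝ)

/-- the level `1 - ε` for the residues `r q`, and for all residues slightly above `r q` -/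
def Level (r : ℕ → ℕ) : Prop :=
  ∀ (ε : ℝ) (U H : ℕ), 0 < ε → ∃ C : ℝ, ∀ x : ℕ, 3 ≤ x → ∀ h : ℕ → ℕ,
    (∀ q, (h q : ℝ) ≤ Real.log x ^ H) →
    ∑ q ∈ (Icc 1 ⌊(x : ℝ) ^ (1 - ε)⌋₊).filter (fun q => (r q + h q).Coprime q),
      |EI x q (r q + h q)| ≤ C * (x / Real.log x ^ U)

/-- the sum of the discrepancies at given residues -/
noncomputable def Fd (r : ℕ → ℕ) (x Q M : ℕ) : ℝ :=
  ∑ q ∈ Icc 1 Q, ∑ h ∈ range (M + 1), ec x q (r q + h)

/-- the points of the grid -/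
def gp (V n i : ℕ) : ℕ := 2 ^ n + i * (2 ^ n / n ^ V)

/-- few large values on the grid -/
def Grid (r : ℕ → ℕ) (ε : ℝ) (U H V : ℕ) : Prop :=
  ∀ᶠ n : ℕ in atTop, ∀ i ≤ 2 * n ^ V,
    Fd r (gp V n i) ⌊((gp V n i : ℕ) : ℝ) ^ (1 - ε)⌋₊ ⌊Real.log (gp V n i : ℕ) ^ H⌋₊ ≤
      (gp V n i : ℕ) / Real.log (gp V n i : ℕ) ^ U

theorem piAP_mono {x y : ℕ} (hxy : x ≤ y) (q a : ℕ) : piAP x q a ≤ piAP y q a := by
  unfold piAP
  have h : ((Icc 1 x).filter (fun p => p.Prime ∧ p ≡ a [MOD q])).card ≤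
      ((Icc 1 y).filter (fun p => p.Prime ∧ p ≡ a [MOD q])).card :=
    card_le_card (filter_subset_filter _ (Icc_subset_Icc le_rfl hxy))
  exact_mod_cast h

theorem lis_mono {x y : ℕ} (hxy : x ≤ y) : lis x ≤ lis y := by
  unfold lis
  refine sum_le_sum_of_subset_of_nonneg (Icc_subset_Icc le_rfl hxy) fun n hn _ => ?_
  rw [mem_Icc] at hn
  exact div_nonneg zero_le_one (Real.log_natCast_nonneg n)

theorem lis_diff (x s : ℕ) (hx : 1 ≤ x) : lis (x + s) - lis x ≤ 2 * s := by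
  induction s with
  | zero => simp
  | succ s ih =>
    have h1 : lis (x + (s + 1)) = lis (x + s) + 1 / Real.log ((x + s + 1 : ℕ) : ℝ) := by
      unfold lis
      rw [show x + (s + 1) = (x + s) + 1 by ring, sum_Icc_succ_top (by omega)]
    have h2 : 1 / Real.log ((x + s + 1 : ℕ) : ℝ) ≤ 2 := by
      have h3 : Real.log 2 ≤ Real.log ((x + s + 1 : ℕ) : ℝ) := by
        apply Real.log_le_log (by norm_num)
        have : 2 ≤ x + s + 1 := by omega
        exact_mod_cast this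
      have h4 := Real.log_two_gt_d9
      rw [div_le_iff₀ (by linarith)]
      linarith
    rw [h1]
    push_cast at h2 ⊢
    linarith

theorem sandwich {x y1 s q a : ℕ} (hq : 1 ≤ q) (hy1 : 1 ≤ y1) (h1 : y1 ≤ x) (h2 : x ≤ y1 + s) :
    |piAP x q a - lis x / (Nat.totient q : ℝ)| ≤
      |piAP y1 q a - lis y1 / (Nat.totient q : ℝ)| +
      |piAP (y1 + s) q a - lis (y1 + s) / (Nat.totient q : ℝ)| + 2 * s * (1 / (Nat.totient q : ℝ)) := by
  have hφ : (0 : ℝ) < Nat.totient q := by exact_mod_cast Nat.totient_pos.2 (by omega)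
  have a1 := piAP_mono h1 q a
  have a2 := piAP_mono h2 q a
  have b1 : lis y1 / (Nat.totient q : ℝ) ≤ lis x / (Nat.totient q : ℝ) :=
    div_le_div_of_nonneg_right (lis_mono h1) hφ.le
  have b2 : lis x / (Nat.totient q : ℝ) ≤ lis (y1 + s) / (Nat.totient q : ℝ) :=
    div_le_div_of_nonneg_right (lis_mono h2) hφ.le
  have b3 : lis (y1 + s) / (Nat.totient q : ℝ) - lis y1 / (Nat.totient q : ℝ) ≤
      2 * s * (1 / (Nat.totient q : ℝ)) := by
    rw [← sub_div, mul_one_div]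
    exact div_le_div_of_nonneg_right (lis_diff y1 s hy1) hφ.le
  have c1 := abs_le.1 (le_refl |piAP y1 q a - lis y1 / (Nat.totient q : ℝ)|)
  have c2 := abs_le.1 (le_refl |piAP (y1 + s) q a - lis (y1 + s) / (Nat.totient q : ℝ)|)
  have d1 := abs_nonneg (piAP y1 q a - lis y1 / (Nat.totient q : ℝ))
  have d2 := abs_nonneg (piAP (y1 + s) q a - lis (y1 + s) / (Nat.totient q : ℝ))
  rw [abs_le]
  constructor <;> linarith [c1.1, c1.2, c2.1, c2.2]

/-- one choice of the shifts is dominated by the sum over all shifts -/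
theorem pick {r h : ℕ → ℕ} {x Q Q' M : ℕ} (hQ : Q ≤ Q') (hM : ∀ q, h q ≤ M) :
    ∑ q ∈ Icc 1 Q, ec x q (r q + h q) ≤ Fd r x Q' M := by
  unfold Fd
  refine (sum_le_sum_of_subset_of_nonneg (Icc_subset_Icc le_rfl hQ) fun q _ _ => ec_nonneg _ _ _).trans
    (sum_le_sum fun q _ => ?_)
  exact single_le_sum (f := fun h => ec x q (r q + h)) (fun _ _ => ec_nonneg _ _ _)
    (mem_range.2 (Nat.lt_succ_of_le (hM q)))

/-- one side of the sandwich -/
theorem side_of (r : ℕ → ℕ) {ε ε' : ℝ} {U H x : ℕ} {h : ℕ → ℕ} (hε'0 : 0 < ε') (hε'ε : 2 * ε' < ε)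
    (hε'2 : ε' < 1 / 2) (hx1 : 1 ≤ x) (hL16 : 16 ≤ Real.log x)
    (e3 : (2 : ℝ) ^ (H + 1) ≤ Real.log x) (e7 : 4 ≤ (x : ℝ) ^ (ε' / 2))
    (hh : ∀ q, (h q : ℝ) ≤ Real.log x ^ H) {y : ℕ} (hxy : x ≤ 2 * y) (hyx : y ≤ 2 * x)
    (hF : Fd r y ⌊((y : ℕ) : ℝ) ^ (1 - ε')⌋₊ ⌊Real.log (y : ℕ) ^ (H + 1)⌋₊ ≤
      (y : ℕ) / Real.log (y : ℕ) ^ U) :
    ∑ q ∈ Icc 1 ⌊(x : ℝ) ^ (1 - ε)⌋₊, ec y q (r q + h q) ≤ 2 * 2 ^ U * (x / Real.log x ^ U) := by
  have hxR : (1 : ℝ) ≤ x := by exact_mod_cast hx1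
  have hxp : (0 : ℝ) < x := by linarith
  set L := Real.log x with hL
  have hL0 : 0 < L := by linarith
  have hxyR : (x : ℝ) ≤ 2 * y := by exact_mod_cast hxy
  have hyxR : (y : ℝ) ≤ 2 * x := by exact_mod_cast hyx
  have hy0 : (0 : ℝ) < y := by linarith
  have hy1R : (1 : ℝ) ≤ y := by
    have : 1 ≤ y := by omega
    exact_mod_cast this
  have hlogy : L / 2 ≤ Real.log y := by
    have h1 : Real.log ((x : ℝ) / 2) ≤ Real.log y := Real.log_le_log (by positivity) (by linarith)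
    rw [Real.log_div hxp.ne' (by norm_num)] at h1
    have h2 := Real.log_two_lt_d9
    linarith
  have hQ : ⌊(x : ℝ) ^ (1 - ε)⌋₊ ≤ ⌊((y : ℕ) : ℝ) ^ (1 - ε')⌋₊ := by
    apply Nat.floor_le_floor
    have h1 : (x : ℝ) ^ (1 - ε) ≤ (x : ℝ) ^ (1 - 2 * ε') :=
      Real.rpow_le_rpow_of_exponent_le hxR (by linarith)
    have h2 : (x : ℝ) ^ (1 - 2 * ε') ≤ (2 * y : ℝ) ^ (1 - 2 * ε') :=
      Real.rpow_le_rpow hxp.le hxyR (by linarith)
    have h3 : (2 * y : ℝ) ^ (1 - 2 * ε') ≤ 2 * (y : ℝ) ^ (1 - 2 * ε') := by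
      rw [Real.mul_rpow (by norm_num) hy0.le]
      refine mul_le_mul_of_nonneg_right ?_ (by positivity)
      calc (2 : ℝ) ^ (1 - 2 * ε') ≤ (2 : ℝ) ^ (1 : ℝ) :=
            Real.rpow_le_rpow_of_exponent_le (by norm_num) (by linarith)
        _ = 2 := Real.rpow_one _
    have h4 : (2 : ℝ) ≤ (y : ℝ) ^ ε' := by
      have h5 : (x : ℝ) ^ (1 / 2 : ℝ) ≤ y := by
        have h6 : (x : ℝ) ^ (1 / 2 : ℝ) * (x : ℝ) ^ (1 / 2 : ℝ) = x := by
          rw [← Real.rpow_add hxp]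
          norm_num
        have h7 : 4 ≤ (x : ℝ) ^ (1 / 2 : ℝ) := by
          refine e7.trans (Real.rpow_le_rpow_of_exponent_le hxR (by linarith))
        nlinarith
      calc (2 : ℝ) ≤ (x : ℝ) ^ (ε' / 2) := by linarith
        _ = ((x : ℝ) ^ (1 / 2 : ℝ)) ^ ε' := by
            rw [← Real.rpow_mul hxp.le]
            congr 1
            ring
        _ ≤ (y : ℝ) ^ ε' := Real.rpow_le_rpow (by positivity) h5 hε'0.le
    have h5 : (y : ℝ) ^ (1 - ε') = (y : ℝ) ^ ε' * (y : ℝ) ^ (1 - 2 * ε') := by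
      rw [← Real.rpow_add hy0]
      congr 1
      ring
    rw [h5]
    exact h1.trans (h2.trans (h3.trans (mul_le_mul_of_nonneg_right h4 (by positivity))))
  have hM : ∀ q, h q ≤ ⌊Real.log (y : ℕ) ^ (H + 1)⌋₊ := by
    intro q
    apply Nat.le_floor
    refine (hh q).trans ?_
    have h1 : (L / 2) ^ (H + 1) ≤ Real.log y ^ (H + 1) := pow_le_pow_left₀ (by positivity) hlogy _
    have h2 : L ^ H ≤ (L / 2) ^ (H + 1) := by
      rw [div_pow, le_div_iff₀ (by positivity), pow_succ L H]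
      exact mul_le_mul_of_nonneg_left e3 (by positivity)
    exact h2.trans h1
  refine (pick hQ hM).trans (hF.trans ?_)
  have h1 : (L / 2) ^ U ≤ Real.log y ^ U := pow_le_pow_left₀ (by positivity) hlogy _
  calc (y : ℝ) / Real.log y ^ U ≤ (2 * x) / (L / 2) ^ U :=
        div_le_div₀ (by positivity) hyxR (by positivity) h1
    _ = 2 * 2 ^ U * (x / L ^ U) := by
        rw [div_pow]
        field_simp

theorem level_of_grid (r : ℕ → ℕ)
    (hG : ∀ (m U H V : ℕ), Grid r (1 / ((m : ℝ) + 2)) U H V) : Level r := by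
  intro ε U H hε
  obtain ⟨k, hk⟩ := Pool.Agent.H398R2.BV.sum_pow_omega_div_totient 1 le_rfl
  set m0 : ℕ := 2 ^ k with hm0
  set V : ℕ := U + m0 + 1 with hV
  -- a small `ε' < ε`
  obtain ⟨m, hm⟩ := exists_nat_one_div_lt (show (0 : ℝ) < min ε 1 / 2 by positivity)
  set ε' : ℝ := 1 / ((m : ℝ) + 2) with hε'
  have hε'0 : 0 < ε' := by positivity
  have hε'1 : ε' < min ε 1 / 2 := by
    refine lt_trans ?_ hm
    rw [hε']
    exact one_div_lt_one_div_of_lt (by positivity) (by linarith)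
  have hε'ε : 2 * ε' < ε := by
    have := min_le_left ε 1
    linarith
  have hε'2 : ε' < 1 / 2 := by
    have := min_le_right ε 1
    linarith
  have hgrid := hG m U (H + 1) V
  obtain ⟨n0, hn0⟩ := eventually_atTop.1 hgrid
  obtain ⟨n1, hn1⟩ : ∃ n1 : ℕ, ∀ n : ℕ, n1 ≤ n → n ^ V ≤ 2 ^ n := by
    have h1 := tendsto_pow_const_div_const_pow_of_one_lt V (show (1 : ℝ) < 2 by norm_num)
    obtain ⟨n1, hn1⟩ := eventually_atTop.1 (h1.eventually (gt_mem_nhds (one_pos : (0 : ℝ) < 1)))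
    refine ⟨n1, fun n hn => ?_⟩
    have h2 := hn1 n hn
    rw [div_lt_one (by positivity)] at h2
    have h3 : ((n ^ V : ℕ) : ℝ) < ((2 ^ n : ℕ) : ℝ) := by
      push_cast
      exact h2
    have h4 : n ^ V < 2 ^ n := by exact_mod_cast h3
    exact h4.le
  -- largeness
  have hev : ∀ᶠ x : ℕ in atTop, 2 ^ (max n0 n1 + 3) ≤ x ∧ 16 ≤ Real.log x ∧
      (2 : ℝ) ^ (H + 1) ≤ Real.log x ∧ (2 : ℝ) ^ (m0 + 2) ≤ Real.log x ∧
      4 * Real.log x ^ U ≤ (x : ℝ) ^ ε' ∧ 4 * Real.log x ^ 0 ≤ (x : ℝ) ^ (ε' / 2) := by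
    filter_upwards [eventually_ge_atTop (2 ^ (max n0 n1 + 3)), evt_log_ge 16, evt_log_ge (2 ^ (H + 1)),
      evt_log_ge (2 ^ (m0 + 2)), evl_pow U ε' hε'0, evl_pow 0 (ε' / 2) (by positivity)]
      with x a1 a2 a3 a4 a6 a7
    exact ⟨a1, a2, a3, a4, a6, a7⟩
  obtain ⟨x0, hx0⟩ := eventually_atTop.1 hev
  have hQle : ∀ x : ℕ, 3 ≤ x → (⌊(x : ℝ) ^ (1 - ε)⌋₊ : ℝ) ≤ x := fun x hx => by
    have hxR : (1 : ℝ) ≤ x := by
      have : 1 ≤ x := by omega
      exact_mod_cast this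
    calc (⌊(x : ℝ) ^ (1 - ε)⌋₊ : ℝ) ≤ (x : ℝ) ^ (1 - ε) := Nat.floor_le (by positivity)
      _ ≤ (x : ℝ) ^ (1 : ℝ) := Real.rpow_le_rpow_of_exponent_le hxR (by linarith)
      _ = x := Real.rpow_one _
  -- the case of large `x`
  have hlarge : ∀ x : ℕ, x0 ≤ x → 3 ≤ x → ∀ h : ℕ → ℕ, (∀ q, (h q : ℝ) ≤ Real.log x ^ H) →
      ∑ q ∈ (Icc 1 ⌊(x : ℝ) ^ (1 - ε)⌋₊).filter (fun q => (r q + h q).Coprime q),
        |EI x q (r q + h q)| ≤ (4 * 2 ^ U + 2) * (x / Real.log x ^ U) := by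
    intro x hx hx3 h hh
    obtain ⟨e1, hL16, e3, e4, e6, e7⟩ := hx0 x hx
    have hx1 : 1 ≤ x := by omega
    have hxR : (1 : ℝ) ≤ x := by exact_mod_cast hx1
    have hxp : (0 : ℝ) < x := by linarith
    set L := Real.log x with hL
    have hL1 : 1 ≤ L := by linarith
    have hL0 : 0 < L := by linarith
    rw [pow_zero, mul_one] at e7
    set n := Nat.log 2 x with hn
    have hn1' : 2 ^ n ≤ x := Nat.pow_log_le_self 2 (by omega)
    have hn2 : x < 2 ^ (n + 1) := Nat.lt_pow_succ_log_self (by norm_num) x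
    have hnn : max n0 n1 + 3 ≤ n := by
      have := Nat.log_mono_right (b := 2) e1
      rwa [Nat.log_pow (by norm_num)] at this
    have hnn0 : n0 ≤ n := by
      have := le_max_left n0 n1
      omega
    have hnn1 : n1 ≤ n := by
      have := le_max_right n0 n1
      omega
    have hnR : (3 : ℝ) ≤ n := by
      have : 3 ≤ n := by omega
      exact_mod_cast this
    -- `log x ≤ n`
    have hLn : L ≤ n := by
      have h1 : L ≤ Real.log ((2 : ℝ) ^ (n + 1)) := by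
        apply Real.log_le_log hxp
        exact_mod_cast hn2.le
      rw [Real.log_pow] at h1
      have h2 := Real.log_two_lt_d9
      push_cast at h1
      nlinarith
    have hn0' : 0 < n := by omega
    -- the step
    set s := 2 ^ n / n ^ V with hs
    have hnV : 0 < n ^ V := Nat.pow_pos hn0'
    have hs1 : 1 ≤ s := by
      rw [hs, Nat.one_le_div_iff hnV]
      exact hn1 n hnn1
    have hsn : s * n ^ V ≤ 2 ^ n := Nat.div_mul_le_self _ _
    have hsn2 : 2 ^ n < n ^ V * (s + 1) := Nat.lt_mul_div_succ _ hnV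
    have hsx : s ≤ x := by
      have : s ≤ 2 ^ n := Nat.div_le_self _ _
      omega
    set i := (x - 2 ^ n) / s with hi
    have hi1 : i * s ≤ x - 2 ^ n := Nat.div_mul_le_self _ _
    have hi2 : x - 2 ^ n < s * (i + 1) := Nat.lt_mul_div_succ _ (by omega)
    have hi3 : i + 1 ≤ 2 * n ^ V := by
      by_contra hcon
      push Not at hcon
      have h1 : 2 * n ^ V ≤ i := by omega
      have h2 : 2 * n ^ V * s ≤ i * s := Nat.mul_le_mul_right _ h1
      have h3 : n ^ V * (s + 1) ≤ 2 * n ^ V * s := by nlinarith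
      have h4 : 2 ^ (n + 1) = 2 * 2 ^ n := pow_succ' _ _
      omega
    set y1 := gp V n i with hy1
    have hy1e : y1 = 2 ^ n + i * s := rfl
    have hy2e : gp V n (i + 1) = y1 + s := by
      rw [hy1]
      unfold gp
      ring
    have hy1x : y1 ≤ x := by omega
    have hxy2 : x ≤ y1 + s := by
      have : s * (i + 1) = i * s + s := by ring
      omega
    have h2n : 1 ≤ 2 ^ n := Nat.one_le_two_pow
    have hy11 : 1 ≤ y1 := by omega
    have hxy1 : x ≤ 2 * y1 := by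
      have h4 : 2 ^ (n + 1) = 2 * 2 ^ n := pow_succ' _ _
      omega
    have g1 := hn0 n hnn0 i (by omega)
    have g2 := hn0 n hnn0 (i + 1) hi3
    rw [hy2e] at g2
    have side : ∀ y : ℕ, x ≤ 2 * y → y ≤ 2 * x →
        Fd r y ⌊((y : ℕ) : ℝ) ^ (1 - ε')⌋₊ ⌊Real.log (y : ℕ) ^ (H + 1)⌋₊ ≤ (y : ℕ) / Real.log (y : ℕ) ^ U →
        ∑ q ∈ Icc 1 ⌊(x : ℝ) ^ (1 - ε)⌋₊, ec y q (r q + h q) ≤ 2 * 2 ^ U * (x / L ^ U) :=
      fun y hxy hyx hF => side_of r hε'0 hε'ε hε'2 hx1 hL16 e3 e7 hh hxy hyx hF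
    have s1 := side y1 hxy1 (by omega) g1
    have s2 := side (y1 + s) (by omega) (by omega) g2
    set Q := ⌊(x : ℝ) ^ (1 - ε)⌋₊ with hQ
    -- pointwise
    have hpt : ∑ q ∈ (Icc 1 Q).filter (fun q => (r q + h q).Coprime q), |EI x q (r q + h q)| ≤
        ∑ q ∈ Icc 1 Q, (ec y1 q (r q + h q) + ec (y1 + s) q (r q + h q) +
          2 * s * ((1 : ℝ) ^ q.primeFactors.card / (Nat.totient q : ℝ)) + 2) := by
      rw [sum_filter]
      refine sum_le_sum fun q hq => ?_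
      rw [mem_Icc] at hq
      have hn0 : 0 ≤ ec y1 q (r q + h q) + ec (y1 + s) q (r q + h q) +
          2 * s * ((1 : ℝ) ^ q.primeFactors.card / (Nat.totient q : ℝ)) + 2 := by
        have := ec_nonneg y1 q (r q + h q)
        have := ec_nonneg (y1 + s) q (r q + h q)
        positivity
      split_ifs with hco
      · have h1 := FinalOf.disc_le x q (r q + h q) (by omega) hq.1
        have h2 := sandwich (q := q) (a := r q + h q) hq.1 hy11 hy1x hxy2
        have h3 : |EI x q (r q + h q)| ≤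
          |piAP x q (r q + h q) - lis x / (Nat.totient q : ℝ)| + 2 := h1
        unfold ec
        rw [if_pos hco, if_pos hco, one_pow]
        linarith
      · exact hn0
    refine hpt.trans ?_
    rw [sum_add_distrib, sum_add_distrib, sum_add_distrib, sum_const, Nat.card_Icc, nsmul_eq_mul,
      ← mul_sum]
    -- the sum of `1 / φ`
    have h3 : 2 * (s : ℝ) * ∑ q ∈ Icc 1 Q, ((1 : ℝ) ^ q.primeFactors.card / (Nat.totient q : ℝ)) ≤
        (1 / 2) * (x / L ^ U) := by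
      have h4 := hk Q
      have h5 : 1 + Real.log Q ≤ 2 * L := by
        have h6 : Real.log Q ≤ L := by
          rcases Nat.eq_zero_or_pos Q with h0 | h0
          · rw [h0, Nat.cast_zero, Real.log_zero]
            exact hL0.le
          · exact Real.log_le_log (by exact_mod_cast h0) (hQle x hx3)
        linarith
      have h6 : 0 ≤ 1 + Real.log Q := by
        have := Real.log_natCast_nonneg Q
        linarith
      have h7 : (s : ℝ) * L ^ V ≤ x := by
        calc (s : ℝ) * L ^ V ≤ s * (n : ℝ) ^ V :=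
              mul_le_mul_of_nonneg_left (pow_le_pow_left₀ hL0.le hLn V) (by positivity)
          _ = ((s * n ^ V : ℕ) : ℝ) := by push_cast; ring
          _ ≤ ((2 ^ n : ℕ) : ℝ) := by exact_mod_cast hsn
          _ ≤ x := by exact_mod_cast hn1'
      have h8 : (s : ℝ) ≤ x / L ^ V := by
        rw [le_div_iff₀ (by positivity)]
        exact h7
      calc 2 * (s : ℝ) * ∑ q ∈ Icc 1 Q, ((1 : ℝ) ^ q.primeFactors.card / (Nat.totient q : ℝ))
          ≤ 2 * (x / L ^ V) * (2 * L) ^ m0 := by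
            refine mul_le_mul (by linarith) (h4.trans (pow_le_pow_left₀ h6 h5 m0)) ?_ (by positivity)
            exact sum_nonneg fun _ _ => by positivity
        _ = (2 ^ (m0 + 1) / L) * (x / L ^ U) := by
            rw [hV, mul_pow]
            field_simp
            ring
        _ ≤ (1 / 2) * (x / L ^ U) := by
            refine mul_le_mul_of_nonneg_right ?_ (by positivity)
            rw [div_le_iff₀ hL0]
            have : (2 : ℝ) ^ (m0 + 2) = 2 * 2 ^ (m0 + 1) := by ring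
            linarith
    have h4 : ((Q + 1 - 1 : ℕ) : ℝ) * 2 ≤ (1 / 2) * (x / L ^ U) := by
      have h5 : ((Q + 1 - 1 : ℕ) : ℝ) ≤ (x : ℝ) ^ (1 - ε') := by
        rw [Nat.add_sub_cancel]
        calc (Q : ℝ) ≤ (x : ℝ) ^ (1 - ε) := Nat.floor_le (by positivity)
          _ ≤ (x : ℝ) ^ (1 - ε') := Real.rpow_le_rpow_of_exponent_le hxR (by linarith)
      have h6 : (x : ℝ) ^ (1 - ε') * (4 * L ^ U) ≤ x := by
        calc (x : ℝ) ^ (1 - ε') * (4 * L ^ U) ≤ (x : ℝ) ^ (1 - ε') * (x : ℝ) ^ ε' :=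
              mul_le_mul_of_nonneg_left e6 (by positivity)
          _ = x := by
              rw [← Real.rpow_add hxp]
              simp
      have h7 : (x : ℝ) ^ (1 - ε') ≤ x / (4 * L ^ U) := by
        rw [le_div_iff₀ (by positivity)]
        exact h6
      have h8 : (x : ℝ) / (4 * L ^ U) = (1 / 4) * (x / L ^ U) := by
        field_simp
      linarith
    have h9 : 0 ≤ (x : ℝ) / L ^ U := by positivity
    linarith
  refine ⟨max (4 * 2 ^ U + 2) (4 * x0 * Real.log x0 ^ U), fun x hx h hh => ?_⟩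
  have hxR : (3 : ℝ) ≤ x := by exact_mod_cast hx
  have hL0 : 0 < Real.log x := Real.log_pos (by linarith)
  rcases le_or_gt x0 x with hc | hc
  · refine (hlarge x hc hx h hh).trans (mul_le_mul_of_nonneg_right (le_max_left _ _) (by positivity))
  · have h1 : ∑ q ∈ (Icc 1 ⌊(x : ℝ) ^ (1 - ε)⌋₊).filter (fun q => (r q + h q).Coprime q),
        |EI x q (r q + h q)| ≤ x * (4 * x) := by
      calc ∑ q ∈ (Icc 1 ⌊(x : ℝ) ^ (1 - ε)⌋₊).filter (fun q => (r q + h q).Coprime q),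
            |EI x q (r q + h q)|
          ≤ ∑ q ∈ Icc 1 ⌊(x : ℝ) ^ (1 - ε)⌋₊, (4 * (x : ℝ)) := by
            rw [sum_filter]
            refine sum_le_sum fun q hq => ?_
            rw [mem_Icc] at hq
            split_ifs
            · exact FinalOf.disc_triv x q (r q + h q) hx hq.1
            · positivity
        _ = (⌊(x : ℝ) ^ (1 - ε)⌋₊ : ℝ) * (4 * x) := by
            rw [sum_const, Nat.card_Icc, nsmul_eq_mul, Nat.add_sub_cancel]
        _ ≤ x * (4 * x) := mul_le_mul_of_nonneg_right (hQle x hx) (by positivity)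
    have hcR : (x : ℝ) ≤ x0 := by exact_mod_cast hc.le
    have h2 : Real.log x ^ U ≤ Real.log x0 ^ U :=
      pow_le_pow_left₀ hL0.le (Real.log_le_log (by linarith) hcR) U
    refine h1.trans ?_
    calc (x : ℝ) * (4 * x) ≤ (4 * x0) * x := by nlinarith
      _ = (4 * x0 * Real.log x ^ U) * (x / Real.log x ^ U) := by
          field_simp
      _ ≤ (4 * x0 * Real.log x0 ^ U) * (x / Real.log x ^ U) := by
          refine mul_le_mul_of_nonneg_right ?_ (by positivity)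
          exact mul_le_mul_of_nonneg_left h2 (by positivity)
      _ ≤ _ := mul_le_mul_of_nonneg_right (le_max_right _ _) (by positivity)

end Pool.Agent.K1H84.EHR
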