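import Pool.Agent.K1H84.EHR.Blk

set_option autoImplicit false

/-! The expected discrepancy for random residues. -/

namespace Pool.Agent.K1H84.EHR

open Finset Filter MeasureTheory Pool.Agent.H442R2.EHI
open scoped ENNReal

/-- few intervals `(b, b + A]` for each dyadic block, which are not too short -/
def Allowed (κ : ℝ) (K : ℕ) (I : ℕ → Finset (ℕ × ℕ)) : Prop :=
  ∀ j : ℕ, ((I j).card : ℝ) ≤ K * ((j : ℝ) + 1) ^ K ∧
    ∀ p ∈ I j, (2 : ℝ) ^ (κ * j) ≤ p.2 ∧ (p.1 : ℝ) + p.2 ≤ K * ((j : ℝ) + 1) ^ K * 2 ^ j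

/-- the dominating density -/
noncomputable def wt (K : ℕ) (I : ℕ → Finset (ℕ × ℕ)) (q a : ℕ) : ℝ :=
  K * ((Nat.log 2 q : ℝ) + 1) ^ K *
    ∑ p ∈ I (Nat.log 2 q), if p.1 < a ∧ a ≤ p.1 + p.2 then 1 / (p.2 : ℝ) else 0

theorem wt_nonneg (K : ℕ) (I : ℕ → Finset (ℕ × ℕ)) (q a : ℕ) : 0 ≤ wt K I q a := by
  unfold wt
  refine mul_nonneg (by positivity) (sum_nonneg fun p _ => ?_)
  split_ifs <;> positivity

theorem expect {κ : ℝ} (hκ : 1 / 2 < κ) (hκ1 : κ ≤ 1) (K H : ℕ) {ε : ℝ} (hε : 0 < ε) (U : ℕ) :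
    ∃ x0 : ℕ, ∀ x : ℕ, x0 ≤ x → ∀ I : ℕ → Finset (ℕ × ℕ), Allowed κ K I →
      ∑ q ∈ Icc 1 ⌊(x : ℝ) ^ (1 - ε)⌋₊, ∑ h ∈ range (⌊Real.log x ^ H⌋₊ + 1),
        ∑ p ∈ I (Nat.log 2 q), K * ((Nat.log 2 q : ℝ) + 1) ^ K / (p.2 : ℝ) *
          ∑ a ∈ Ioc p.1 (p.1 + p.2), ec x q (a + h) ≤ x / Real.log x ^ U := by
  set K' := max K H with hK'
  obtain ⟨x1, h1⟩ := blk hκ hκ1 K' hε (U + (4 * K + H + 5))
  have hev : ∀ᶠ x : ℕ in atTop, x1 ≤ x ∧ 1 ≤ x ∧ 4 ≤ Real.log x ∧ (K : ℝ) ≤ Real.log x := by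
    filter_upwards [eventually_ge_atTop x1, eventually_ge_atTop 1, evt_log_ge 4, evt_log_ge K]
      with x a1 a2 a3 a4
    exact ⟨a1, a2, a3, a4⟩
  obtain ⟨x0, hx0⟩ := eventually_atTop.1 hev
  refine ⟨x0, fun x hx I hI => ?_⟩
  obtain ⟨e1, hx1, hL4, hLK⟩ := hx0 x hx
  have hxR : (1 : ℝ) ≤ x := by exact_mod_cast hx1
  have hxp : (0 : ℝ) < x := by linarith
  set L := Real.log x with hL
  have hL1 : 1 ≤ L := by linarith
  have hL0 : 0 < L := by linarith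
  set Q := ⌊(x : ℝ) ^ (1 - ε)⌋₊ with hQ
  set M := ⌊L ^ H⌋₊ with hM
  have hMR : (M : ℝ) ≤ L ^ H := Nat.floor_le (by positivity)
  have hxle : (x : ℝ) ^ (1 - ε) ≤ x := by
    calc (x : ℝ) ^ (1 - ε) ≤ (x : ℝ) ^ (1 : ℝ) := Real.rpow_le_rpow_of_exponent_le hxR (by linarith)
      _ = x := Real.rpow_one _
  -- one block
  have hblock : ∀ j : ℕ, j ∈ range (Nat.log 2 Q + 1) → 1 ≤ Q → ∀ h ∈ range (M + 1), ∀ p ∈ I j,
      K * ((j : ℝ) + 1) ^ K / (p.2 : ℝ) * ∑ a ∈ Ioc p.1 (p.1 + p.2),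
        ∑ q ∈ Ico (2 ^ j) (2 ^ (j + 1)), ec x q (a + h) ≤
      L ^ (2 * K + 1) * (x / L ^ (U + (4 * K + H + 5))) := by
    intro j hj hQ1 h hh p hp
    rw [mem_range] at hj hh
    have hjQ : 2 ^ j ≤ Q := (Nat.pow_le_pow_right (by norm_num) (by omega)).trans
      (Nat.pow_log_le_self 2 (by omega))
    have hjx : (2 : ℝ) ^ j ≤ (x : ℝ) ^ (1 - ε) := by
      calc (2 : ℝ) ^ j = ((2 ^ j : ℕ) : ℝ) := by push_cast; ring
        _ ≤ (Q : ℝ) := by exact_mod_cast hjQ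
        _ ≤ _ := Nat.floor_le (by positivity)
    obtain ⟨g1, g2⟩ := size_le hx1 hL4 hLK (hjx.trans hxle)
    obtain ⟨k1, k2⟩ := (hI j).2 p hp
    have hp0 : (0 : ℝ) < p.2 := lt_of_lt_of_le (by positivity) k1
    have hj1 : (1 : ℝ) ≤ (j : ℝ) + 1 := by
      have : (0 : ℝ) ≤ j := Nat.cast_nonneg j
      linarith
    have hKK : (K : ℝ) * ((j : ℝ) + 1) ^ K ≤ (K' : ℝ) * ((j : ℝ) + 1) ^ K' := by
      refine mul_le_mul ?_ (pow_le_pow_right₀ hj1 (le_max_left _ _)) (by positivity) (by positivity)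
      exact_mod_cast le_max_left K H
    have h2 := h1 x e1 j p.1 p.2 h hjx k1 (k2.trans (mul_le_mul_of_nonneg_right hKK (by positivity)))
      (by
        calc (h : ℝ) ≤ M := by exact_mod_cast (by omega : h ≤ M)
          _ ≤ L ^ H := hMR
          _ ≤ L ^ K' := pow_le_pow_right₀ hL1 (le_max_right _ _))
    have h3 : ∑ a ∈ Ioc p.1 (p.1 + p.2), ∑ q ∈ Ico (2 ^ j) (2 ^ (j + 1)), ec x q (a + h) =
        ∑ a ∈ Ioc (p.1 + h) (p.1 + h + p.2), ∑ q ∈ Ico (2 ^ j) (2 ^ (j + 1)), ec x q a := by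
      have h4 : Ioc (p.1 + h) (p.1 + h + p.2) = (Ioc p.1 (p.1 + p.2)).image (fun a => a + h) := by
        ext a
        rw [mem_image, mem_Ioc]
        constructor
        · intro ha
          refine ⟨a - h, ?_, by omega⟩
          rw [mem_Ioc]
          omega
        · rintro ⟨c, hc, rfl⟩
          rw [mem_Ioc] at hc
          omega
      rw [h4, sum_image (fun a _ b _ hab => by simpa using hab)]
    rw [h3]
    calc K * ((j : ℝ) + 1) ^ K / (p.2 : ℝ) * ∑ a ∈ Ioc (p.1 + h) (p.1 + h + p.2),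
          ∑ q ∈ Ico (2 ^ j) (2 ^ (j + 1)), ec x q a
        ≤ K * ((j : ℝ) + 1) ^ K / (p.2 : ℝ) * (p.2 * x / L ^ (U + (4 * K + H + 5))) :=
          mul_le_mul_of_nonneg_left h2 (by positivity)
      _ = K * ((j : ℝ) + 1) ^ K * (x / L ^ (U + (4 * K + H + 5))) := by
          field_simp
      _ ≤ L ^ (2 * K + 1) * (x / L ^ (U + (4 * K + H + 5))) :=
          mul_le_mul_of_nonneg_right g1 (by positivity)
  rcases Nat.eq_zero_or_pos Q with hQ0 | hQ0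
  · rw [hQ0]
    simp only [Icc_eq_empty_of_lt (show (0 : ℕ) < 1 by norm_num), sum_empty]
    positivity
  -- sum over the blocks
  have hmaps : ∀ q ∈ Icc 1 Q, Nat.log 2 q ∈ range (Nat.log 2 Q + 1) := by
    intro q hq
    rw [mem_Icc] at hq
    rw [mem_range]
    have := Nat.log_mono_right (b := 2) hq.2
    omega
  rw [← sum_fiberwise_of_maps_to hmaps]
  have hV : (0 : ℝ) ≤ L ^ (2 * K + 1) * (x / L ^ (U + (4 * K + H + 5))) := by positivity
  have hone : ∀ j ∈ range (Nat.log 2 Q + 1),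
      ∑ q ∈ Icc 1 Q with Nat.log 2 q = j, ∑ h ∈ range (M + 1),
        ∑ p ∈ I (Nat.log 2 q), K * ((Nat.log 2 q : ℝ) + 1) ^ K / (p.2 : ℝ) *
          ∑ a ∈ Ioc p.1 (p.1 + p.2), ec x q (a + h) ≤
      (M + 1 : ℝ) * (L ^ (2 * K + 1) * (L ^ (2 * K + 1) * (x / L ^ (U + (4 * K + H + 5))))) := by
    intro j hj
    have h2 : ∑ q ∈ Icc 1 Q with Nat.log 2 q = j, ∑ h ∈ range (M + 1),
        ∑ p ∈ I (Nat.log 2 q), K * ((Nat.log 2 q : ℝ) + 1) ^ K / (p.2 : ℝ) *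
          ∑ a ∈ Ioc p.1 (p.1 + p.2), ec x q (a + h) ≤
        ∑ q ∈ Ico (2 ^ j) (2 ^ (j + 1)), ∑ h ∈ range (M + 1),
        ∑ p ∈ I j, K * ((j : ℝ) + 1) ^ K / (p.2 : ℝ) *
          ∑ a ∈ Ioc p.1 (p.1 + p.2), ec x q (a + h) := by
      have h3 : ∑ q ∈ Icc 1 Q with Nat.log 2 q = j, ∑ h ∈ range (M + 1),
          ∑ p ∈ I (Nat.log 2 q), K * ((Nat.log 2 q : ℝ) + 1) ^ K / (p.2 : ℝ) *
            ∑ a ∈ Ioc p.1 (p.1 + p.2), ec x q (a + h) =
          ∑ q ∈ Icc 1 Q with Nat.log 2 q = j, ∑ h ∈ range (M + 1),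
          ∑ p ∈ I j, K * ((j : ℝ) + 1) ^ K / (p.2 : ℝ) *
            ∑ a ∈ Ioc p.1 (p.1 + p.2), ec x q (a + h) := by
        refine sum_congr rfl fun q hq => ?_
        rw [(mem_filter.1 hq).2]
      rw [h3]
      refine sum_le_sum_of_subset_of_nonneg ?_ fun q _ _ => ?_
      · intro q hq
        rw [mem_filter, mem_Icc] at hq
        rw [mem_Ico]
        have hq1 : q ≠ 0 := by omega
        have h4 := Nat.pow_log_le_self 2 hq1
        have h5 := Nat.lt_pow_succ_log_self (b := 2) (by norm_num) q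
        rw [hq.2] at h4 h5
        exact ⟨h4, h5⟩
      · refine sum_nonneg fun h _ => sum_nonneg fun p _ => mul_nonneg (by positivity)
          (sum_nonneg fun a _ => ec_nonneg _ _ _)
    refine h2.trans ?_
    rw [sum_comm]
    have h3 : ∀ h ∈ range (M + 1), ∑ q ∈ Ico (2 ^ j) (2 ^ (j + 1)),
        ∑ p ∈ I j, K * ((j : ℝ) + 1) ^ K / (p.2 : ℝ) *
          ∑ a ∈ Ioc p.1 (p.1 + p.2), ec x q (a + h) ≤
        L ^ (2 * K + 1) * (L ^ (2 * K + 1) * (x / L ^ (U + (4 * K + H + 5)))) := by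
      intro h hh
      rw [sum_comm]
      have h4 : ∀ p ∈ I j, ∑ q ∈ Ico (2 ^ j) (2 ^ (j + 1)), K * ((j : ℝ) + 1) ^ K / (p.2 : ℝ) *
          ∑ a ∈ Ioc p.1 (p.1 + p.2), ec x q (a + h) ≤
          L ^ (2 * K + 1) * (x / L ^ (U + (4 * K + H + 5))) := by
        intro p hp
        rw [← mul_sum, sum_comm]
        exact hblock j hj hQ0 h hh p hp
      refine (sum_le_sum h4).trans ?_
      rw [sum_const, nsmul_eq_mul]
      have hjQ : 2 ^ j ≤ Q := by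
        rw [mem_range] at hj
        exact (Nat.pow_le_pow_right (by norm_num) (by omega)).trans
          (Nat.pow_log_le_self 2 (by omega))
      have hjx : (2 : ℝ) ^ j ≤ (x : ℝ) ^ (1 - ε) := by
        calc (2 : ℝ) ^ j = ((2 ^ j : ℕ) : ℝ) := by push_cast; ring
          _ ≤ (Q : ℝ) := by exact_mod_cast hjQ
          _ ≤ _ := Nat.floor_le (by positivity)
      obtain ⟨g1, -⟩ := size_le hx1 hL4 hLK (hjx.trans hxle)
      exact mul_le_mul_of_nonneg_right ((hI j).1.trans g1) hV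
    refine (sum_le_sum h3).trans ?_
    rw [sum_const, nsmul_eq_mul, card_range]
    push_cast
    exact le_rfl
  refine (sum_le_sum hone).trans ?_
  rw [sum_const, nsmul_eq_mul, card_range]
  have hJ : ((Nat.log 2 Q + 1 : ℕ) : ℝ) ≤ L ^ 2 := by
    have hjx : (2 : ℝ) ^ (Nat.log 2 Q) ≤ x := by
      calc (2 : ℝ) ^ (Nat.log 2 Q) = ((2 ^ (Nat.log 2 Q) : ℕ) : ℝ) := by push_cast; ring
        _ ≤ (Q : ℝ) := by exact_mod_cast Nat.pow_log_le_self 2 (by omega)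
        _ ≤ (x : ℝ) ^ (1 - ε) := Nat.floor_le (by positivity)
        _ ≤ x := hxle
    obtain ⟨-, g2⟩ := size_le hx1 hL4 hLK hjx
    push_cast
    exact g2
  have hM1 : (M : ℝ) + 1 ≤ L ^ (H + 1) := by
    have h2 : (1 : ℝ) ≤ L ^ H := one_le_pow₀ hL1
    calc (M : ℝ) + 1 ≤ L ^ H + L ^ H := by linarith
      _ = 2 * L ^ H := by ring
      _ ≤ L * L ^ H := mul_le_mul_of_nonneg_right (by linarith) (by positivity)
      _ = L ^ (H + 1) := by ring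
  calc ((Nat.log 2 Q + 1 : ℕ) : ℝ) *
        ((M + 1 : ℝ) * (L ^ (2 * K + 1) * (L ^ (2 * K + 1) * (x / L ^ (U + (4 * K + H + 5))))))
      ≤ L ^ 2 * (L ^ (H + 1) * (L ^ (2 * K + 1) * (L ^ (2 * K + 1) *
        (x / L ^ (U + (4 * K + H + 5)))))) := by
        refine mul_le_mul hJ (mul_le_mul_of_nonneg_right hM1 (by positivity)) (by positivity)
          (by positivity)
    _ = x / L ^ U := by
        have h2 : L ^ (U + (4 * K + H + 5)) = L ^ U * (L ^ 2 * L ^ (H + 1) * L ^ (2 * K + 1) *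
          L ^ (2 * K + 1)) := by ring
        rw [h2]
        field_simp

/-- the random discrepancy -/
noncomputable def FF {Ω : Type} (r : ℕ → Ω → ℕ) (x Q M : ℕ) (ω : Ω) : ℝ :=
  ∑ q ∈ Icc 1 Q, ∑ h ∈ range (M + 1), ec x q (r q ω + h)

theorem FF_nonneg {Ω : Type} (r : ℕ → Ω → ℕ) (x Q M : ℕ) (ω : Ω) : 0 ≤ FF r x Q M ω :=
  sum_nonneg fun _ _ => sum_nonneg fun _ _ => ec_nonneg _ _ _

theorem lint {Ω : Type} [MeasurableSpace Ω] (P : Measure Ω) (r : Ω → ℕ) (hr : Measurable r)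
    (f w : ℕ → ℝ) (hf : ∀ a, 0 ≤ f a) (hw : ∀ a, 0 ≤ w a) (T : Finset ℕ) (hT : ∀ a, a ∉ T → w a = 0)
    (hP : ∀ a, P {ω | r ω = a} ≤ ENNReal.ofReal (w a)) :
    ∫⁻ ω, ENNReal.ofReal (f (r ω)) ∂P ≤ ENNReal.ofReal (∑ a ∈ T, w a * f a) := by
  have h1 : ∫⁻ ω, ENNReal.ofReal (f (r ω)) ∂P = ∑' a, ENNReal.ofReal (f a) * P {ω | r ω = a} := by
    have h2 := lintegral_map (μ := P) (f := fun a : ℕ => ENNReal.ofReal (f a)) (g := r)
      (measurable_of_countable _) hr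
    rw [← h2, lintegral_countable']
    refine tsum_congr fun a => ?_
    rw [Measure.map_apply hr (measurableSet_singleton a)]
    rfl
  rw [h1, tsum_eq_sum (s := T)]
  · rw [ENNReal.ofReal_sum_of_nonneg fun a _ => mul_nonneg (hw a) (hf a)]
    refine sum_le_sum fun a _ => ?_
    rw [ENNReal.ofReal_mul (hw a), mul_comm]
    exact mul_le_mul_left (hP a) _
  · intro a ha
    have h2 := hP a
    rw [hT a ha, ENNReal.ofReal_zero] at h2
    rw [le_antisymm h2 zero_le, mul_zero]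

theorem lint_FF {Ω : Type} [MeasurableSpace Ω] (P : Measure Ω) (r : ℕ → Ω → ℕ)
    (hr : ∀ q, Measurable (r q)) (K : ℕ) (I : ℕ → Finset (ℕ × ℕ))
    (hP : ∀ q, 1 ≤ q → ∀ a, P {ω | r q ω = a} ≤ ENNReal.ofReal (wt K I q a)) (x Q M : ℕ) :
    ∫⁻ ω, ENNReal.ofReal (FF r x Q M ω) ∂P ≤ ENNReal.ofReal (∑ q ∈ Icc 1 Q, ∑ h ∈ range (M + 1),
      ∑ p ∈ I (Nat.log 2 q), K * ((Nat.log 2 q : ℝ) + 1) ^ K / (p.2 : ℝ) *
        ∑ a ∈ Ioc p.1 (p.1 + p.2), ec x q (a + h)) := by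
  classical
  have hpos : ∀ q h : ℕ, 0 ≤ ∑ p ∈ I (Nat.log 2 q), K * ((Nat.log 2 q : ℝ) + 1) ^ K / (p.2 : ℝ) *
        ∑ a ∈ Ioc p.1 (p.1 + p.2), ec x q (a + h) := fun q h =>
    sum_nonneg fun p _ => mul_nonneg (by positivity) (sum_nonneg fun _ _ => ec_nonneg _ _ _)
  have h1 : ∀ ω, ENNReal.ofReal (FF r x Q M ω) =
      ∑ q ∈ Icc 1 Q, ∑ h ∈ range (M + 1), ENNReal.ofReal (ec x q (r q ω + h)) := by
    intro ω
    unfold FF
    rw [ENNReal.ofReal_sum_of_nonneg fun q _ => sum_nonneg fun _ _ => ec_nonneg _ _ _]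
    refine sum_congr rfl fun q _ => ?_
    rw [ENNReal.ofReal_sum_of_nonneg fun h _ => ec_nonneg _ _ _]
  have hmeas : ∀ q h : ℕ, Measurable fun ω => ENNReal.ofReal (ec x q (r q ω + h)) := fun q h =>
    (measurable_of_countable (fun a : ℕ => ENNReal.ofReal (ec x q (a + h)))).comp (hr q)
  simp_rw [h1]
  rw [lintegral_finsetSum _ fun q _ => Finset.measurable_sum _ fun h _ => hmeas q h]
  rw [ENNReal.ofReal_sum_of_nonneg fun q _ => sum_nonneg fun h _ => hpos q h]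
  refine sum_le_sum fun q hq => ?_
  have hq1 : 1 ≤ q := (mem_Icc.1 hq).1
  rw [lintegral_finsetSum _ fun h _ => hmeas q h]
  rw [ENNReal.ofReal_sum_of_nonneg fun h _ => hpos q h]
  refine sum_le_sum fun h _ => ?_
  set T : Finset ℕ := (I (Nat.log 2 q)).biUnion fun p => Ioc p.1 (p.1 + p.2) with hT
  refine (lint P (r q) (hr q) (fun a => ec x q (a + h)) (wt K I q) (fun a => ec_nonneg _ _ _)
    (wt_nonneg K I q) T ?_ (hP q hq1)).trans (ENNReal.ofReal_le_ofReal ?_)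
  · intro a ha
    unfold wt
    rw [sum_eq_zero, mul_zero]
    intro p hp
    rw [if_neg]
    intro h2
    apply ha
    rw [hT, mem_biUnion]
    exact ⟨p, hp, mem_Ioc.2 h2⟩
  · have h2 : ∀ a, wt K I q a * ec x q (a + h) = ∑ p ∈ I (Nat.log 2 q),
        K * ((Nat.log 2 q : ℝ) + 1) ^ K / (p.2 : ℝ) *
          (if p.1 < a ∧ a ≤ p.1 + p.2 then ec x q (a + h) else 0) := by
      intro a
      unfold wt
      rw [mul_sum, sum_mul]
      refine sum_congr rfl fun p _ => ?_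
      split_ifs
      · ring
      · ring
    simp_rw [h2]
    rw [sum_comm]
    refine sum_le_sum fun p hp => ?_
    rw [← mul_sum]
    refine mul_le_mul_of_nonneg_left ?_ (by positivity)
    rw [← sum_filter]
    refine sum_le_sum_of_subset_of_nonneg ?_ fun _ _ _ => ec_nonneg _ _ _
    intro a ha
    rw [mem_filter] at ha
    exact mem_Ioc.2 ha.2

end Pool.Agent.K1H84.EHR
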