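import Pool.Agent.K1H84.EHR.Det

set_option autoImplicit false

/-! Random residues. -/

namespace Pool.Agent.K1H84.EHR

open Finset Filter MeasureTheory Pool.Agent.H442R2.EHI
open scoped ENNReal

theorem measurable_FF {Ω : Type} [MeasurableSpace Ω] (r : ℕ → Ω → ℕ) (hr : ∀ q, Measurable (r q))
    (x Q M : ℕ) : Measurable (FF r x Q M) := by
  unfold FF
  refine Finset.measurable_fun_sum _ fun q _ => Finset.measurable_fun_sum _ fun h _ => ?_
  exact (measurable_of_countable (fun a : ℕ => ec x q (a + h))).comp (hr q)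

theorem ae_grid {Ω : Type} [MeasurableSpace Ω] (P : Measure Ω) (r : ℕ → Ω → ℕ)
    (hr : ∀ q, Measurable (r q)) {κ : ℝ} (hκ : 1 / 2 < κ) (hκ1 : κ ≤ 1) (K : ℕ)
    (I : ℕ → Finset (ℕ × ℕ)) (hI : Allowed κ K I)
    (hP : ∀ q, 1 ≤ q → ∀ a, P {ω | r q ω = a} ≤ ENNReal.ofReal (wt K I q a)) (m U H V : ℕ) :
    ∀ᵐ ω ∂P, Grid (fun q => r q ω) (1 / ((m : ℝ) + 2)) U H V := by
  set ε : ℝ := 1 / ((m : ℝ) + 2) with hε
  have hε0 : 0 < ε := by positivity
  obtain ⟨x0, hx0⟩ := expect hκ hκ1 K H hε0 (U + V + 2)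
  -- one point
  have hpt : ∀ y : ℕ, x0 ≤ y → 3 ≤ y → P {ω | ¬ (FF r y ⌊(y : ℝ) ^ (1 - ε)⌋₊ ⌊Real.log y ^ H⌋₊ ω ≤
      y / Real.log y ^ U)} ≤ ENNReal.ofReal (1 / Real.log y ^ (V + 2)) := by
    intro y hy hy3
    have hyR : (3 : ℝ) ≤ y := by exact_mod_cast hy3
    have hL0 : 0 < Real.log y := Real.log_pos (by linarith)
    set t : ℝ := y / Real.log y ^ U with ht
    have ht0 : 0 < t := by positivity
    set Q := ⌊(y : ℝ) ^ (1 - ε)⌋₊
    set M := ⌊Real.log y ^ H⌋₊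
    have h1 : P {ω | ¬ (FF r y Q M ω ≤ t)} ≤
        P {ω | ENNReal.ofReal t ≤ ENNReal.ofReal (FF r y Q M ω)} := by
      refine measure_mono fun ω hω => ?_
      have h2 : t < FF r y Q M ω := not_le.1 hω
      exact ENNReal.ofReal_le_ofReal h2.le
    refine h1.trans ?_
    have h2 := meas_ge_le_lintegral_div (μ := P)
      (f := fun ω => ENNReal.ofReal (FF r y Q M ω)) (measurable_FF r hr y Q M).ennreal_ofReal.aemeasurable
      (ε := ENNReal.ofReal t) (by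
        rw [ne_eq, ENNReal.ofReal_eq_zero, not_le]
        exact ht0) ENNReal.ofReal_ne_top
    refine h2.trans ?_
    have h3 := (lint_FF P r hr K I hP y Q M).trans (ENNReal.ofReal_le_ofReal (hx0 y hy I hI))
    refine (ENNReal.div_le_div_right h3 _).trans ?_
    rw [← ENNReal.ofReal_div_of_pos ht0]
    apply ENNReal.ofReal_le_ofReal
    rw [ht]
    apply le_of_eq
    have hy0 : (y : ℝ) ≠ 0 := by linarith
    rw [show U + V + 2 = U + (V + 2) by ring, pow_add]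
    field_simp
  obtain ⟨n0, hn0⟩ : ∃ n0 : ℕ, ∀ n, n0 ≤ n → x0 ≤ 2 ^ n ∧ 3 ≤ 2 ^ n ∧ 1 ≤ n := by
    refine ⟨max x0 2, fun n hn => ?_⟩
    have h1 : x0 ≤ n := (le_max_left _ _).trans hn
    have h2 : 2 ≤ n := (le_max_right _ _).trans hn
    have h3 : n < 2 ^ n := Nat.lt_two_pow_self
    have h4 : 2 ^ 2 ≤ 2 ^ n := Nat.pow_le_pow_right (by norm_num) h2
    omega
  set Bn : ℕ → Set Ω := fun n => {ω | n0 ≤ n ∧ ∃ i ≤ 2 * n ^ V,
    ¬ (Fd (fun q => r q ω) (gp V n i) ⌊((gp V n i : ℕ) : ℝ) ^ (1 - ε)⌋₊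
      ⌊Real.log (gp V n i : ℕ) ^ H⌋₊ ≤ (gp V n i : ℕ) / Real.log (gp V n i : ℕ) ^ U)} with hBn
  have hmeas : ∀ n, P (Bn n) ≤ ENNReal.ofReal (3 * 2 ^ (V + 2) * (1 / (n : ℝ) ^ 2)) := by
    intro n
    by_cases hn : n0 ≤ n
    · obtain ⟨a1, a2, a3⟩ := hn0 n hn
      have hnR : (1 : ℝ) ≤ n := by exact_mod_cast a3
      have h1 : Bn n ⊆ ⋃ i ∈ range (2 * n ^ V + 1), {ω | ¬ (FF r (gp V n i)
          ⌊((gp V n i : ℕ) : ℝ) ^ (1 - ε)⌋₊ ⌊Real.log (gp V n i : ℕ) ^ H⌋₊ ω ≤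
          (gp V n i : ℕ) / Real.log (gp V n i : ℕ) ^ U)} := by
        rintro ω ⟨-, i, hi, hω⟩
        rw [Set.mem_iUnion₂]
        exact ⟨i, mem_range.2 (by omega), hω⟩
      refine (measure_mono h1).trans ((measure_biUnion_finset_le _ _).trans ?_)
      have h2 : ∀ i ∈ range (2 * n ^ V + 1), P {ω | ¬ (FF r (gp V n i)
          ⌊((gp V n i : ℕ) : ℝ) ^ (1 - ε)⌋₊ ⌊Real.log (gp V n i : ℕ) ^ H⌋₊ ω ≤
          (gp V n i : ℕ) / Real.log (gp V n i : ℕ) ^ U)} ≤ ENNReal.ofReal ((2 / (n : ℝ)) ^ (V + 2)) := by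
        intro i _
        have hgp : 2 ^ n ≤ gp V n i := by
          unfold gp
          omega
        refine (hpt (gp V n i) (by omega) (by omega)).trans (ENNReal.ofReal_le_ofReal ?_)
        have h3 : (n : ℝ) / 2 ≤ Real.log (gp V n i : ℕ) := by
          have h4 : Real.log ((2 : ℝ) ^ n) ≤ Real.log (gp V n i : ℕ) := by
            apply Real.log_le_log (by positivity)
            exact_mod_cast hgp
          rw [Real.log_pow] at h4
          have h5 := Real.log_two_gt_d9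
          nlinarith
        have h4 : (2 / (n : ℝ)) ^ (V + 2) = 1 / ((n : ℝ) / 2) ^ (V + 2) := by
          rw [div_pow, div_pow, one_div_div]
        rw [h4]
        exact one_div_le_one_div_of_le (by positivity) (pow_le_pow_left₀ (by positivity) h3 _)
      refine (sum_le_sum h2).trans ?_
      rw [sum_const, card_range, nsmul_eq_mul, ← ENNReal.ofReal_natCast,
        ← ENNReal.ofReal_mul (by positivity)]
      apply ENNReal.ofReal_le_ofReal
      have h5 : ((2 * n ^ V + 1 : ℕ) : ℝ) ≤ 3 * (n : ℝ) ^ V := by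
        push_cast
        have : (1 : ℝ) ≤ (n : ℝ) ^ V := one_le_pow₀ hnR
        linarith
      calc ((2 * n ^ V + 1 : ℕ) : ℝ) * (2 / (n : ℝ)) ^ (V + 2)
          ≤ 3 * (n : ℝ) ^ V * (2 / (n : ℝ)) ^ (V + 2) := mul_le_mul_of_nonneg_right h5 (by positivity)
        _ = 3 * 2 ^ (V + 2) * (1 / (n : ℝ) ^ 2) := by
            rw [div_pow, pow_add (n : ℝ) V 2]
            have : (n : ℝ) ≠ 0 := by linarith
            field_simp
    · have h1 : Bn n = ∅ := by
        rw [Set.eq_empty_iff_forall_notMem]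
        rintro ω ⟨h, -⟩
        exact hn h
      rw [h1, measure_empty]
      exact zero_le
  have hsum : ∑' n, P (Bn n) ≠ ⊤ := by
    have h1 : Summable fun n : ℕ => 3 * 2 ^ (V + 2) * (1 / (n : ℝ) ^ 2) :=
      (Real.summable_one_div_nat_pow.2 (by norm_num)).mul_left _
    exact ne_top_of_le_ne_top h1.tsum_ofReal_ne_top (ENNReal.tsum_le_tsum hmeas)
  filter_upwards [ae_eventually_notMem hsum] with ω hω
  unfold Grid
  filter_upwards [hω, eventually_ge_atTop n0] with n hn hn1 i hi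
  by_contra hcon
  exact hn ⟨hn1, i, hi, hcon⟩

/-- **Random residues.** -/
theorem random {Ω : Type} [MeasurableSpace Ω] (P : Measure Ω) (r : ℕ → Ω → ℕ)
    (hr : ∀ q, Measurable (r q)) {κ : ℝ} (hκ : 1 / 2 < κ) (hκ1 : κ ≤ 1) (K : ℕ)
    (I : ℕ → Finset (ℕ × ℕ)) (hI : Allowed κ K I)
    (hP : ∀ q, 1 ≤ q → ∀ a, P {ω | r q ω = a} ≤ ENNReal.ofReal (wt K I q a)) :
    ∀ᵐ ω ∂P, Level (fun q => r q ω) := by
  have h : ∀ᵐ ω ∂P, ∀ m U H V : ℕ, Grid (fun q => r q ω) (1 / ((m : ℝ) + 2)) U H V := by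
    rw [ae_all_iff]
    intro m
    rw [ae_all_iff]
    intro U
    rw [ae_all_iff]
    intro H
    rw [ae_all_iff]
    intro V
    exact ae_grid P r hr hκ hκ1 K I hI hP m U H V
  filter_upwards [h] with ω hω
  exact level_of_grid _ hω

theorem EI_congr {x q a a' : ℕ} (h : a ≡ a' [MOD q]) : EI x q a = EI x q a' := by
  unfold EI piAP
  have h1 : (Icc 1 x).filter (fun p => p.Prime ∧ p ≡ a [MOD q]) =
      (Icc 1 x).filter (fun p => p.Prime ∧ p ≡ a' [MOD q]) := by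
    refine filter_congr fun p _ => ?_
    exact and_congr_right fun _ => ⟨fun h2 => h2.trans h, fun h2 => h2.trans h.symm⟩
  rw [h1]

/-- the level only depends on the residue classes -/
theorem Level_congr {r r' : ℕ → ℕ} (h : ∀ q, 1 ≤ q → r q ≡ r' q [MOD q]) (hr : Level r) :
    Level r' := by
  intro ε U H hε
  obtain ⟨C, hC⟩ := hr ε U H hε
  refine ⟨C, fun x hx g hg => ?_⟩
  refine le_trans (le_of_eq ?_) (hC x hx g hg)
  rw [sum_filter, sum_filter]
  refine sum_congr rfl fun q hq => ?_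
  rw [mem_Icc] at hq
  have h1 : r q + g q ≡ r' q + g q [MOD q] := Nat.ModEq.add_right _ (h q hq.1)
  have h2 : (r' q + g q).Coprime q ↔ (r q + g q).Coprime q := by
    unfold Nat.Coprime
    rw [h1.gcd_eq]
  rw [EI_congr h1]
  exact if_congr h2 rfl rfl

end Pool.Agent.K1H84.EHR
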