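import Pool.Agent.K1H84.EHR.Ran

set_option autoImplicit false

/-! The residues `⌊ξ l_q⌋ + 1` for almost all real numbers `ξ`. -/

namespace Pool.Agent.K1H84.EHR

open Finset Filter MeasureTheory Pool.Agent.H442R2.EHI
open scoped ENNReal

/-- the `ξ ≥ 0` with a given integral part of `ξ l` -/
theorem vol_floor {l : ℝ} (hl : 0 < l) (a : ℕ) :
    volume {ξ : ℝ | 0 ≤ ξ ∧ ⌊ξ * l⌋₊ = a} ≤ ENNReal.ofReal (1 / l) := by
  have h1 : {ξ : ℝ | 0 ≤ ξ ∧ ⌊ξ * l⌋₊ = a} ⊆ Set.Ico ((a : ℝ) / l) (((a : ℝ) + 1) / l) := by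
    rintro ξ ⟨h0, h2⟩
    rw [Nat.floor_eq_iff (by positivity)] at h2
    constructor
    · rw [div_le_iff₀ hl]
      exact h2.1
    · rw [lt_div_iff₀ hl]
      exact h2.2
  refine (measure_mono h1).trans ?_
  rw [Real.volume_Ico]
  apply ENNReal.ofReal_le_ofReal
  rw [← sub_div]
  apply le_of_eq
  congr 1
  ring

/-- the intervals -/
noncomputable def ints (κ : ℝ) (M j : ℕ) : Finset (ℕ × ℕ) := by
  classical
  exact ((range (j + 1)).image fun i => ((0 : ℕ), (M + 1) * 2 ^ (i + 1))).filter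
    (fun p => (2 : ℝ) ^ (κ * j) ≤ p.2)

theorem allowed_ints {κ : ℝ} (M : ℕ) : Allowed κ (2 * (M + 1) ^ 2) (ints κ M) := by
  classical
  intro j
  have hj1 : (1 : ℝ) ≤ (j : ℝ) + 1 := by
    have : (0 : ℝ) ≤ j := Nat.cast_nonneg j
    linarith
  have hM : (M : ℝ) + 1 ≤ ((M : ℝ) + 1) ^ 2 := by
    have : (0 : ℝ) ≤ M := Nat.cast_nonneg M
    nlinarith
  have hM1 : (1 : ℝ) ≤ ((M : ℝ) + 1) ^ 2 := by
    have : (0 : ℝ) ≤ M := Nat.cast_nonneg M
    nlinarith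
  have hp : (j : ℝ) + 1 ≤ ((j : ℝ) + 1) ^ (2 * (M + 1) ^ 2) := by
    calc (j : ℝ) + 1 = ((j : ℝ) + 1) ^ 1 := (pow_one _).symm
      _ ≤ _ := pow_le_pow_right₀ hj1 (by
        have : 0 < 2 * (M + 1) ^ 2 := by positivity
        omega)
  have hp1 : (1 : ℝ) ≤ ((j : ℝ) + 1) ^ (2 * (M + 1) ^ 2) := one_le_pow₀ hj1
  constructor
  · have h1 : (ints κ M j).card ≤ j + 1 := by
      unfold ints
      refine (card_filter_le _ _).trans (card_image_le.trans ?_)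
      rw [card_range]
    have h2 : ((ints κ M j).card : ℝ) ≤ (j : ℝ) + 1 := by exact_mod_cast h1
    push_cast
    nlinarith
  · intro p hp'
    unfold ints at hp'
    rw [mem_filter, mem_image] at hp'
    obtain ⟨⟨i, hi, rfl⟩, h2⟩ := hp'
    refine ⟨h2, ?_⟩
    rw [mem_range] at hi
    have h3 : (2 : ℝ) ^ i ≤ 2 ^ j := pow_le_pow_right₀ (by norm_num) (by omega)
    push_cast
    have h4 : ((M : ℝ) + 1) * 2 ^ (i + 1) ≤ (2 * ((M : ℝ) + 1) ^ 2) * 2 ^ j := by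
      rw [pow_succ]
      have h5 : (0 : ℝ) ≤ 2 ^ i := by positivity
      have h6 : (M + 1 : ℝ) * 2 ^ i ≤ ((M : ℝ) + 1) ^ 2 * 2 ^ j := mul_le_mul hM h3 h5 (by positivity)
      linarith
    have h7 : (2 * ((M : ℝ) + 1) ^ 2) * 2 ^ j ≤
        (2 * ((M : ℝ) + 1) ^ 2) * ((j : ℝ) + 1) ^ (2 * (M + 1) ^ 2) * 2 ^ j := by
      refine mul_le_mul_of_nonneg_right ?_ (by positivity)
      have h8 : (0 : ℝ) ≤ 2 * ((M : ℝ) + 1) ^ 2 := by positivity
      nlinarith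
    linarith

/-- one interval in the density -/
theorem le_wt {κ : ℝ} {M q i a : ℕ} {t : ℝ} (hi : i ≤ Nat.log 2 q)
    (h1 : (2 : ℝ) ^ (κ * Nat.log 2 q) ≤ ((M : ℝ) + 1) * 2 ^ (i + 1)) (ha0 : 0 < a)
    (ha : a ≤ (M + 1) * 2 ^ (i + 1)) (ht : t * ((M + 1) * 2 ^ (i + 1)) ≤ 2 * ((M : ℝ) + 1) ^ 2) :
    t ≤ wt (2 * (M + 1) ^ 2) (ints κ M) q a := by
  classical
  set j := Nat.log 2 q with hj
  have hj1 : (1 : ℝ) ≤ (j : ℝ) + 1 := by
    have : (0 : ℝ) ≤ j := Nat.cast_nonneg j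
    linarith
  have hp1 : (1 : ℝ) ≤ ((j : ℝ) + 1) ^ (2 * (M + 1) ^ 2) := one_le_pow₀ hj1
  have hmem : ((0 : ℕ), (M + 1) * 2 ^ (i + 1)) ∈ ints κ M j := by
    unfold ints
    rw [mem_filter, mem_image]
    refine ⟨⟨i, mem_range.2 (by omega), rfl⟩, ?_⟩
    push_cast
    exact h1
  unfold wt
  have h2 := single_le_sum (f := fun p : ℕ × ℕ => if p.1 < a ∧ a ≤ p.1 + p.2 then 1 / (p.2 : ℝ) else 0)
    (fun p _ => by
      split_ifs
      · positivity
      · exact le_rfl) hmem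
  have h3 : (if (0 : ℕ) < a ∧ a ≤ 0 + (M + 1) * 2 ^ (i + 1) then
      1 / (((M + 1) * 2 ^ (i + 1) : ℕ) : ℝ) else 0) = 1 / (((M + 1) * 2 ^ (i + 1) : ℕ) : ℝ) :=
    if_pos ⟨ha0, by omega⟩
  simp only at h2
  rw [h3] at h2
  have hA : (0 : ℝ) < ((M : ℝ) + 1) * 2 ^ (i + 1) := by positivity
  push_cast at h2 ⊢
  calc t ≤ 2 * ((M : ℝ) + 1) ^ 2 * (1 / (((M : ℝ) + 1) * 2 ^ (i + 1))) := by
        rw [mul_one_div, le_div_iff₀ hA]
        exact ht
    _ ≤ 2 * ((M : ℝ) + 1) ^ 2 * ((j : ℝ) + 1) ^ (2 * (M + 1) ^ 2) *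
        (1 / (((M : ℝ) + 1) * 2 ^ (i + 1))) := by
        refine mul_le_mul_of_nonneg_right ?_ (by positivity)
        have h8 : (0 : ℝ) ≤ 2 * ((M : ℝ) + 1) ^ 2 := by positivity
        nlinarith
    _ ≤ _ := mul_le_mul_of_nonneg_left h2 (by positivity)

/-- the residues -/
noncomputable def res (l : ℕ → ℝ) (q : ℕ) (ξ : ℝ) : ℕ :=
  if l q ≤ q then ⌊ξ * l q⌋₊ + 1 else ⌊ξ * l q⌋₊ % q + 1

theorem measurable_res (l : ℕ → ℝ) (q : ℕ) : Measurable (res l q) := by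
  unfold res
  have h1 : Measurable fun ξ : ℝ => ⌊ξ * l q⌋₊ := Nat.measurable_floor.comp (measurable_id.mul_const _)
  split_ifs
  · exact (measurable_of_countable fun n : ℕ => n + 1).comp h1
  · exact (measurable_of_countable fun n : ℕ => n % q + 1).comp h1

theorem prob_res {κ : ℝ} (hκ0 : 0 < κ) (hκ1 : κ ≤ 1) (l : ℕ → ℝ) (hl : ∀ q : ℕ, (q : ℝ) ^ κ ≤ l q)
    (M q : ℕ) (hq : 1 ≤ q) (a : ℕ) :
    volume.restrict (Set.Ico (0 : ℝ) M) {ξ | res l q ξ = a} ≤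
      ENNReal.ofReal (wt (2 * (M + 1) ^ 2) (ints κ M) q a) := by
  have hqR : (1 : ℝ) ≤ q := by exact_mod_cast hq
  have hl1 : 1 ≤ l q := (Real.one_le_rpow hqR hκ0.le).trans (hl q)
  have hl0 : 0 < l q := by linarith
  have hM0 : (0 : ℝ) ≤ M := Nat.cast_nonneg M
  have hms : MeasurableSet {ξ | res l q ξ = a} := measurable_res l q (measurableSet_singleton a)
  rw [Measure.restrict_apply hms]
  set j := Nat.log 2 q with hj
  have hjq : 2 ^ j ≤ q := Nat.pow_log_le_self 2 (by omega)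
  have hqj : q < 2 ^ (j + 1) := Nat.lt_pow_succ_log_self (by norm_num) q
  have hjqR : (2 : ℝ) ^ j ≤ q := by exact_mod_cast hjq
  have hqjR : (q : ℝ) ≤ 2 ^ (j + 1) := by exact_mod_cast hqj.le
  have hκj : (2 : ℝ) ^ (κ * j) ≤ (q : ℝ) ^ κ := by
    calc (2 : ℝ) ^ (κ * j) = ((2 : ℝ) ^ j) ^ κ := by
          rw [← Real.rpow_natCast, ← Real.rpow_mul (by norm_num)]
          congr 1
          ring
      _ ≤ (q : ℝ) ^ κ := Real.rpow_le_rpow (by positivity) hjqR hκ0.le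
  by_cases hemp : ({ξ | res l q ξ = a} ∩ Set.Ico (0 : ℝ) M) = ∅
  · rw [hemp, measure_empty]
    exact zero_le
  obtain ⟨ξ₀, hξ₀, hξ0, hξM⟩ := Set.nonempty_iff_ne_empty.2 hemp
  rw [Set.mem_ofPred_eq] at hξ₀
  by_cases hc : l q ≤ q
  · -- short intervals
    set v := ⌊l q⌋₊ with hv
    have hv1 : 1 ≤ v := Nat.le_floor (by exact_mod_cast hl1)
    have hvq : v ≤ q := by
      have : (v : ℝ) ≤ q := (Nat.floor_le hl0.le).trans hc
      exact_mod_cast this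
    set i := Nat.log 2 v with hi
    have hij : i ≤ j := Nat.log_mono_right hvq
    have hiv : 2 ^ i ≤ v := Nat.pow_log_le_self 2 (by omega)
    have hvi : v < 2 ^ (i + 1) := Nat.lt_pow_succ_log_self (by norm_num) v
    have hivR : (2 : ℝ) ^ i ≤ l q := by
      have : ((2 ^ i : ℕ) : ℝ) ≤ v := by exact_mod_cast hiv
      push_cast at this
      exact this.trans (Nat.floor_le hl0.le)
    have hli : l q ≤ 2 ^ (i + 1) := by
      have h1 : l q < v + 1 := Nat.lt_floor_add_one _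
      have h2 : ((v + 1 : ℕ) : ℝ) ≤ ((2 ^ (i + 1) : ℕ) : ℝ) := by exact_mod_cast hvi
      push_cast at h2
      linarith
    have h2i : (0 : ℝ) < 2 ^ i := by positivity
    have hres : ∀ ξ, res l q ξ = ⌊ξ * l q⌋₊ + 1 := fun ξ => by
      unfold res
      rw [if_pos hc]
    have ha : a = ⌊ξ₀ * l q⌋₊ + 1 := by rw [← hres, hξ₀]
    have hale : a ≤ (M + 1) * 2 ^ (i + 1) := by
      have h1 : (⌊ξ₀ * l q⌋₊ : ℝ) ≤ M * 2 ^ (i + 1) := by
        refine (Nat.floor_le (by positivity)).trans ?_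
        exact mul_le_mul hξM.le hli hl0.le hM0
      have h2 : (⌊ξ₀ * l q⌋₊ : ℕ) ≤ M * 2 ^ (i + 1) := by exact_mod_cast h1
      have h3 : 1 ≤ 2 ^ (i + 1) := Nat.one_le_two_pow
      rw [ha]
      calc ⌊ξ₀ * l q⌋₊ + 1 ≤ M * 2 ^ (i + 1) + 2 ^ (i + 1) := by omega
        _ = (M + 1) * 2 ^ (i + 1) := by ring
    have hsub : ({ξ | res l q ξ = a} ∩ Set.Ico (0 : ℝ) M) ⊆
        {ξ : ℝ | 0 ≤ ξ ∧ ⌊ξ * l q⌋₊ = a - 1} := by
      rintro ξ ⟨h1, h2, -⟩
      rw [Set.mem_ofPred_eq, hres] at h1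
      exact ⟨h2, by omega⟩
    refine (measure_mono hsub).trans ((vol_floor hl0 _).trans (ENNReal.ofReal_le_ofReal ?_))
    refine le_wt hij ?_ (by omega) hale ?_
    · refine hκj.trans ((hl q).trans (hli.trans ?_))
      have : (0 : ℝ) < 2 ^ (i + 1) := by positivity
      nlinarith
    · have h1 : 1 / l q ≤ 1 / 2 ^ i := one_div_le_one_div_of_le h2i hivR
      calc 1 / l q * (((M : ℝ) + 1) * 2 ^ (i + 1)) ≤ 1 / 2 ^ i * (((M : ℝ) + 1) * 2 ^ (i + 1)) :=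
            mul_le_mul_of_nonneg_right h1 (by positivity)
        _ = 2 * ((M : ℝ) + 1) := by
            rw [pow_succ]
            field_simp
        _ ≤ 2 * ((M : ℝ) + 1) ^ 2 := by nlinarith
  · -- whole residue systems
    push Not at hc
    have hres : ∀ ξ, res l q ξ = ⌊ξ * l q⌋₊ % q + 1 := fun ξ => by
      unfold res
      rw [if_neg (not_le.2 hc)]
    have ha : a = ⌊ξ₀ * l q⌋₊ % q + 1 := by rw [← hres, hξ₀]
    have haq : a ≤ q := by
      have := Nat.mod_lt ⌊ξ₀ * l q⌋₊ (show q > 0 by omega)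
      omega
    set B := ⌊M * l q⌋₊ / q with hB
    have hsub : ({ξ | res l q ξ = a} ∩ Set.Ico (0 : ℝ) M) ⊆
        ⋃ k ∈ range (B + 1), {ξ : ℝ | 0 ≤ ξ ∧ ⌊ξ * l q⌋₊ = q * k + (a - 1)} := by
      rintro ξ ⟨h1, h2, h3⟩
      rw [Set.mem_ofPred_eq, hres] at h1
      rw [Set.mem_iUnion₂]
      refine ⟨⌊ξ * l q⌋₊ / q, ?_, h2, ?_⟩
      · rw [mem_range]
        have h4 : ⌊ξ * l q⌋₊ ≤ ⌊M * l q⌋₊ :=
          Nat.floor_le_floor (mul_le_mul_of_nonneg_right h3.le hl0.le)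
        have := Nat.div_le_div_right (c := q) h4
        omega
      · have h4 := Nat.div_add_mod ⌊ξ * l q⌋₊ q
        omega
    have hcount : volume ({ξ | res l q ξ = a} ∩ Set.Ico (0 : ℝ) M) ≤
        ENNReal.ofReal (((M : ℝ) + 1) / q) := by
      refine (measure_mono hsub).trans ((measure_biUnion_finset_le _ _).trans ?_)
      refine (sum_le_sum fun k _ => vol_floor hl0 _).trans ?_
      rw [sum_const, card_range, nsmul_eq_mul, ← ENNReal.ofReal_natCast,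
        ← ENNReal.ofReal_mul (by positivity)]
      apply ENNReal.ofReal_le_ofReal
      have h1 : (B : ℝ) ≤ M * l q / q := by
        calc (B : ℝ) ≤ (⌊M * l q⌋₊ : ℝ) / q := Nat.cast_div_le
          _ ≤ M * l q / q := div_le_div_of_nonneg_right (Nat.floor_le (by positivity)) (by linarith)
      push_cast
      calc ((B : ℝ) + 1) * (1 / l q) ≤ (M * l q / q + 1) * (1 / l q) :=
            mul_le_mul_of_nonneg_right (by linarith) (by positivity)
        _ = M / q + 1 / l q := by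
            field_simp
        _ ≤ M / q + 1 / q := by
            have := one_div_le_one_div_of_le (show (0 : ℝ) < q by linarith) hc.le
            linarith
        _ = ((M : ℝ) + 1) / q := by ring
    refine hcount.trans (ENNReal.ofReal_le_ofReal ?_)
    have hq0 : (0 : ℝ) < q := by linarith
    refine le_wt (i := j) le_rfl ?_ (by omega) ?_ ?_
    · have h1 : (2 : ℝ) ^ (κ * j) ≤ (q : ℝ) := by
        refine hκj.trans ?_
        calc (q : ℝ) ^ κ ≤ (q : ℝ) ^ (1 : ℝ) := Real.rpow_le_rpow_of_exponent_le hqR hκ1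
          _ = q := Real.rpow_one _
      refine h1.trans (hqjR.trans ?_)
      have : (0 : ℝ) < 2 ^ (j + 1) := by positivity
      nlinarith
    · calc a ≤ q := haq
        _ ≤ 2 ^ (j + 1) := hqj.le
        _ ≤ (M + 1) * 2 ^ (j + 1) := Nat.le_mul_of_pos_left _ (by omega)
    · calc ((M : ℝ) + 1) / q * (((M : ℝ) + 1) * 2 ^ (j + 1))
          = ((M : ℝ) + 1) ^ 2 * (2 * (2 ^ j / q)) := by
            rw [pow_succ]
            ring
        _ ≤ ((M : ℝ) + 1) ^ 2 * (2 * 1) := by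
            refine mul_le_mul_of_nonneg_left ?_ (by positivity)
            have : (2 : ℝ) ^ j / q ≤ 1 := by
              rw [div_le_one hq0]
              exact hjqR
            linarith
        _ = 2 * ((M : ℝ) + 1) ^ 2 := by ring

/-- **Almost all real numbers.** -/
theorem real_points {κ : ℝ} (hκ : 1 / 2 < κ) (l : ℕ → ℝ) (hl : ∀ q : ℕ, (q : ℝ) ^ κ ≤ l q) :
    ∀ᵐ ξ : ℝ, 0 ≤ ξ → Level (fun q => ⌊ξ * l q⌋₊ + 1) := by
  set κ' := min κ 1 with hκ'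
  have hκ'1 : κ' ≤ 1 := min_le_right _ _
  have hκ'2 : 1 / 2 < κ' := lt_min hκ (by norm_num)
  have hl' : ∀ q : ℕ, (q : ℝ) ^ κ' ≤ l q := by
    intro q
    rcases Nat.eq_zero_or_pos q with h0 | h0
    · have := hl 0
      rw [h0, Nat.cast_zero, Real.zero_rpow (by linarith)]
      rwa [Nat.cast_zero, Real.zero_rpow (by linarith)] at this
    · refine le_trans (Real.rpow_le_rpow_of_exponent_le ?_ (min_le_left _ _)) (hl q)
      exact_mod_cast h0
  have key : ∀ M : ℕ, ∀ᵐ ξ : ℝ, ξ ∈ Set.Ico (0 : ℝ) M → Level (fun q => res l q ξ) := by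
    intro M
    have h := random (volume.restrict (Set.Ico (0 : ℝ) M)) (res l) (measurable_res l) hκ'2 hκ'1
      (2 * (M + 1) ^ 2) (ints κ' M) (allowed_ints M)
      (fun q hq a => prob_res (by linarith) hκ'1 l hl' M q hq a)
    rwa [ae_restrict_iff' measurableSet_Ico] at h
  filter_upwards [ae_all_iff.2 key] with ξ hξ h0
  obtain ⟨M, hM⟩ := exists_nat_gt ξ
  refine Level_congr (fun q hq => ?_) (hξ M ⟨h0, hM⟩)
  show res l q ξ ≡ ⌊ξ * l q⌋₊ + 1 [MOD q]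
  unfold res
  split_ifs
  · exact Nat.ModEq.refl _
  · exact Nat.ModEq.add_right _ (Nat.mod_modEq _ _)

end Pool.Agent.K1H84.EHR
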